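import Mathlib

set_option autoImplicit false

namespace Pool.Agent.TH437.RL

open Finset Equiv Equiv.Perm MvPolynomial

variable {ι : Type} [Fintype ι] [DecidableEq ι]

/-- The matrix of variables, `M i j = X (j, i)`. -/
noncomputable def MX (ι : Type) : Matrix ι ι (MvPolynomial (ι × ι) ℤ) :=
  Matrix.of fun i j => X (j, i)

/-- The all ones exponent. -/
noncomputable def J1 (ι : Type) [Fintype ι] : (ι × ι) →₀ ℕ := Finsupp.equivFunOnFinite.symm 1

/-- Monomial of a permutation with a mask. -/
noncomputable def mon (mask : ι → Prop) [DecidablePred mask] (π : Perm ι) :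
    MvPolynomial (ι × ι) ℤ := ∏ i, if mask i then 1 else X (i, π i)

theorem det_MX : (MX ι).det = ∑ π : Perm ι, ((sign π : ℤ) : MvPolynomial (ι × ι) ℤ) *
    mon (fun _ => False) π := by
  rw [Matrix.det_apply']
  refine Finset.sum_congr rfl fun π _ => ?_
  simp [mon, MX]

theorem adj_MX (a b : ι) : (MX ι).adjugate a b = ∑ π ∈ univ.filter (fun π : Perm ι => π a = b),
    ((sign π : ℤ) : MvPolynomial (ι × ι) ℤ) * mon (fun i => i = a) π := by
  rw [Matrix.adjugate_apply, Matrix.det_apply', Finset.sum_filter]
  refine Finset.sum_congr rfl fun π _ => ?_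
  by_cases h : π a = b
  · rw [if_pos h]
    congr 1
    unfold mon
    refine Finset.prod_congr rfl fun i _ => ?_
    by_cases hi : i = a
    · subst hi
      rw [if_pos rfl, h, Matrix.updateRow_self]
      simp
    · rw [if_neg hi, Matrix.updateRow_ne]
      · simp [MX]
      · intro hc
        exact hi (π.injective (hc.trans h.symm))
  · rw [if_neg h]
    have : ∏ i, (MX ι).updateRow b (Pi.single a 1) (π i) i = 0 := by
      refine Finset.prod_eq_zero (Finset.mem_univ (π.symm b)) ?_
      rw [Equiv.apply_symm_apply, Matrix.updateRow_self, Pi.single_eq_of_ne]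
      intro hc
      exact h (by rw [← hc]; simp)
    rw [this, mul_zero]

omit [DecidableEq ι] in
theorem mon_eq (mask : ι → Prop) [DecidablePred mask] (π : Perm ι) :
    mon mask π = monomial (∑ i, if mask i then 0 else Finsupp.single (i, π i) 1) 1 := by
  unfold mon
  rw [MvPolynomial.monomial_sum_one]
  refine Finset.prod_congr rfl fun i _ => ?_
  split_ifs
  · simp
  · rfl

open Classical in
theorem coeff_prod_mon {O : Type} [Fintype O] [DecidableEq O] (mask : O → ι → Prop)
    [∀ o, DecidablePred (mask o)] (S : O → Finset (Perm ι)) :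
    coeff (J1 ι) (∏ o, ∑ π ∈ S o, ((sign π : ℤ) : MvPolynomial (ι × ι) ℤ) * mon (mask o) π) =
      ∑ p ∈ Fintype.piFinset S, if (∀ l j, ∃! o, ¬ mask o l ∧ p o l = j) then
        (∏ o, (sign (p o) : ℤ)) else 0 := by
  rw [Finset.prod_univ_sum, coeff_sum]
  refine Finset.sum_congr rfl fun p _ => ?_
  rw [Finset.prod_mul_distrib]
  have h1 : (∏ o, ((sign (p o) : ℤ) : MvPolynomial (ι × ι) ℤ)) = C (∏ o, (sign (p o) : ℤ)) := by
    simp
  have h2 : (∏ o, mon (mask o) (p o)) =
      monomial (∑ o, ∑ i, if mask o i then 0 else Finsupp.single (i, p o i) 1) 1 := by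
    rw [MvPolynomial.monomial_sum_one]
    exact Finset.prod_congr rfl fun o _ => mon_eq _ _
  rw [h1, h2, coeff_C_mul, coeff_monomial]
  have h3 : (∑ o, ∑ i, if mask o i then 0 else Finsupp.single (i, p o i) 1) = J1 ι ↔
      (∀ l j, ∃! o, ¬ mask o l ∧ p o l = j) := by
    have h4 : ∀ l j, (∑ o, ∑ i, if mask o i then (0 : (ι × ι) →₀ ℕ) else
        Finsupp.single (i, p o i) 1) (l, j) =
        (univ.filter (fun o => ¬ mask o l ∧ p o l = j)).card := by
      intro l j
      rw [Finset.card_filter, Finsupp.finsetSum_apply]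
      refine Finset.sum_congr rfl fun o _ => ?_
      rw [Finsupp.finsetSum_apply, Finset.sum_eq_single l]
      · by_cases hm : mask o l
        · simp [hm]
        · by_cases hp : p o l = j
          · simp [hm, hp]
          · rw [if_neg hm, Finsupp.single_apply, if_neg, if_neg]
            · tauto
            · intro hc
              exact hp (Prod.ext_iff.1 hc).2
      · intro i _ hi
        by_cases hm : mask o i
        · simp [hm]
        · rw [if_neg hm, Finsupp.single_apply, if_neg]
          intro hc
          exact hi (Prod.ext_iff.1 hc).1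
      · simp
    constructor
    · intro h l j
      have h5 := h4 l j
      rw [h] at h5
      have h6 : (univ.filter (fun o => ¬ mask o l ∧ p o l = j)).card = 1 := by
        rw [← h5]; simp [J1]
      rw [Finset.card_eq_one] at h6
      obtain ⟨a, ha⟩ := h6
      have ha' : ∀ o, (¬ mask o l ∧ p o l = j) ↔ o = a := by
        intro o
        have := Finset.ext_iff.1 ha o
        simpa using this
      exact ⟨a, (ha' a).2 rfl, fun o ho => (ha' o).1 ho⟩
    · intro h
      ext ⟨l, j⟩
      rw [h4 l j]
      obtain ⟨a, ha, ha'⟩ := h l j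
      have : univ.filter (fun o => ¬ mask o l ∧ p o l = j) = {a} := by
        ext o
        simp only [Finset.mem_filter, Finset.mem_univ, true_and, Finset.mem_singleton]
        exact ⟨fun ho => ha' o ho, fun ho => by rw [ho]; exact ha⟩
      rw [this]
      simp [J1]
  by_cases h : (∀ l j, ∃! o, ¬ mask o l ∧ p o l = j)
  · rw [if_pos h, if_pos (h3.2 h), mul_one]
  · rw [if_neg h, if_neg (fun hc => h (h3.1 hc)), mul_zero]

end Pool.Agent.TH437.RL
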