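import Mathlib
import Pool.Agent.TH437.Coeff

set_option autoImplicit false

namespace Pool.Agent.TH437.RL

open Finset Equiv Equiv.Perm MvPolynomial

variable {ι : Type} [Fintype ι] [DecidableEq ι]

/-- A family of permutations whose graphs partition `ι × ι`. -/
def Lat (π : ι → Perm ι) : Prop := ∀ l j, ∃! k, π k l = j

/-- The product of the signs. -/
def sg {O : Type} [Fintype O] (π : O → Perm ι) : ℤ := ∏ k, (sign (π k) : ℤ)

open Classical in
/-- Signed number of all families. -/
noncomputable def Asum (ι : Type) [Fintype ι] [DecidableEq ι] : ℤ :=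
  ∑ π : ι → Perm ι, if Lat π then sg π else 0

open Classical in
/-- Signed number of the families which come from `det * ∏ adj`. -/
noncomputable def Wsum (σ : Perm ι) : ℤ :=
  ∑ π : Option ι → Perm ι, if (∀ k, π (some k) k = σ k) ∧
    (∀ l j, ∃! o, ¬ (o = some l) ∧ π o l = j) then sg π else 0

open Classical in
/-- Signed number of reduced families with respect to the element `z`. -/
noncomputable def rho (ι : Type) [Fintype ι] [DecidableEq ι] (z : ι) : ℤ :=
  ∑ π : ι → Perm ι, if Lat π ∧ (∀ k, π k z = k) ∧ (∀ k, π k k = z) then sg π else 0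

theorem coeff_det_pow : coeff (J1 ι) ((MX ι).det ^ Fintype.card ι) = Asum ι := by
  classical
  have h := coeff_prod_mon (ι := ι) (O := ι) (fun _ _ => False) (fun _ => univ)
  rw [Fintype.piFinset_univ] at h
  rw [← Finset.card_univ, ← Finset.prod_const, det_MX, h]
  unfold Asum
  refine Finset.sum_congr rfl fun π _ => ?_
  by_cases hl : Lat π
  · rw [if_pos hl, if_pos]
    · rfl
    · intro l j; simpa using hl l j
  · rw [if_neg hl, if_neg]
    intro hc
    apply hl
    intro l j
    simpa using hc l j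

theorem coeff_det_adj (σ : Perm ι) :
    coeff (J1 ι) ((MX ι).det * ∏ k, (MX ι).adjugate k (σ k)) = Wsum σ := by
  classical
  have h := coeff_prod_mon (ι := ι) (O := Option ι) (fun o i => o = some i)
    (fun o => match o with | none => univ | some k => univ.filter (fun π : Perm ι => π k = σ k))
  rw [Fintype.prod_option] at h
  have h1 : (MX ι).det * ∏ k, (MX ι).adjugate k (σ k) =
      (∑ π : Perm ι, ((sign π : ℤ) : MvPolynomial (ι × ι) ℤ) *
        mon (fun i => (none : Option ι) = some i) π) *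
      ∏ k, ∑ π ∈ univ.filter (fun π : Perm ι => π k = σ k),
        ((sign π : ℤ) : MvPolynomial (ι × ι) ℤ) * mon (fun i => some k = some i) π := by
    rw [det_MX]
    refine congrArg₂ (· * ·) ?_ ?_
    · refine Finset.sum_congr rfl fun π _ => ?_
      refine congrArg₂ (· * ·) rfl ?_
      unfold mon
      simp
    · refine Finset.prod_congr rfl fun k _ => ?_
      rw [adj_MX]
      refine Finset.sum_congr rfl fun π _ => ?_
      refine congrArg₂ (· * ·) rfl ?_
      unfold mon
      refine Finset.prod_congr rfl fun i _ => ?_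
      by_cases hi : i = k
      · simp [hi]
      · rw [if_neg hi, if_neg]
        intro hc
        exact hi (Option.some.inj hc).symm
  rw [h1, h]
  unfold Wsum
  rw [← Finset.sum_filter, ← Finset.sum_filter]
  refine Finset.sum_congr ?_ fun _ _ => rfl
  ext π
  simp only [Finset.mem_filter, Fintype.mem_piFinset, Finset.mem_univ, true_and]
  refine and_congr ?_ Iff.rfl
  rw [Option.forall]
  simp

theorem Wsum_eq (hev : Even (Fintype.card ι)) (σ : Perm ι) :
    Wsum σ = (sign σ : ℤ) * Wsum (1 : Perm ι) := by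
  classical
  unfold Wsum
  rw [Finset.mul_sum]
  symm
  refine Fintype.sum_equiv (Equiv.piCongrRight fun _ : Option ι => Equiv.mulLeft σ) _ _ ?_
  intro π
  have h0 : sg (fun o => σ * π o) = (sign σ : ℤ) * sg π := by
    unfold sg
    simp only [Equiv.Perm.sign_mul, Units.val_mul, Finset.prod_mul_distrib]
    congr 1
    rw [Finset.prod_const, Finset.card_univ, Fintype.card_option]
    obtain ⟨m, hm⟩ := hev
    rw [hm]
    rcases Int.units_eq_one_or (sign σ) with h | h
    · simp [h]
    · simp [h]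
  have h1 : ((∀ k, (Equiv.piCongrRight fun _ : Option ι => Equiv.mulLeft σ) π (some k) k = σ k) ∧
      (∀ l j, ∃! o, ¬ (o = some l) ∧
        (Equiv.piCongrRight fun _ : Option ι => Equiv.mulLeft σ) π o l = j)) ↔
      ((∀ k, π (some k) k = (1 : Perm ι) k) ∧ (∀ l j, ∃! o, ¬ (o = some l) ∧ π o l = j)) := by
    simp only [Equiv.piCongrRight_apply, Pi.map_apply, Equiv.coe_mulLeft, Equiv.Perm.mul_apply]
    refine and_congr (forall_congr' fun k => ?_) (forall_congr' fun l => ?_)
    · simp
    · constructor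
      · intro h j
        obtain ⟨o, ho, hu⟩ := h (σ j)
        refine ⟨o, ⟨ho.1, σ.injective ho.2⟩, fun o' ho' => hu o' ⟨ho'.1, by rw [ho'.2]⟩⟩
      · intro h j
        obtain ⟨o, ho, hu⟩ := h (σ.symm j)
        refine ⟨o, ⟨ho.1, by rw [ho.2]; simp⟩, fun o' ho' => hu o' ⟨ho'.1, ?_⟩⟩
        rw [← ho'.2]; simp
  by_cases hc : ((∀ k, π (some k) k = (1 : Perm ι) k) ∧
      (∀ l j, ∃! o, ¬ (o = some l) ∧ π o l = j))
  · rw [if_pos hc, if_pos (h1.2 hc), ← h0]
    rfl
  · rw [if_neg hc, if_neg (fun h => hc (h1.1 h)), mul_zero]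

theorem fact_mul_W (hev : Even (Fintype.card ι)) (hne : 0 < Fintype.card ι) :
    ((Fintype.card ι).factorial : ℤ) * Wsum (1 : Perm ι) = Asum ι := by
  classical
  have h1 : (MX ι).det * ((MX ι).adjugate).det = (MX ι).det ^ Fintype.card ι := by
    rw [Matrix.det_adjugate, ← pow_succ']
    congr 1
    omega
  have h2 : ((MX ι).adjugate).det = ∑ σ : Perm ι, ((sign σ : ℤ) : MvPolynomial (ι × ι) ℤ) *
      ∏ k, (MX ι).adjugate k (σ k) := by
    rw [← Matrix.det_transpose, Matrix.det_apply']
    rfl
  have h3 : ∀ σ : Perm ι, coeff (J1 ι) ((MX ι).det * (((sign σ : ℤ) : MvPolynomial (ι × ι) ℤ) *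
      ∏ k, (MX ι).adjugate k (σ k))) = Wsum (1 : Perm ι) := by
    intro σ
    have e : (MX ι).det * (((sign σ : ℤ) : MvPolynomial (ι × ι) ℤ) *
      ∏ k, (MX ι).adjugate k (σ k)) = C (sign σ : ℤ) * ((MX ι).det *
      ∏ k, (MX ι).adjugate k (σ k)) := by
      rw [show ((sign σ : ℤ) : MvPolynomial (ι × ι) ℤ) = C (sign σ : ℤ) by simp]
      ring
    rw [e, coeff_C_mul, coeff_det_adj, Wsum_eq hev, ← mul_assoc]
    rcases Int.units_eq_one_or (sign σ) with h | h <;> simp [h]
  rw [← coeff_det_pow, ← h1, h2, Finset.mul_sum, coeff_sum, Finset.sum_congr rfl fun σ _ => h3 σ,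
    Finset.sum_const, Finset.card_univ, Fintype.card_perm, nsmul_eq_mul]

end Pool.Agent.TH437.RL
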