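import Mathlib
import Pool.Agent.TH437.Ident

set_option autoImplicit false

namespace Pool.Agent.TH437.RL

open Finset Equiv Equiv.Perm

variable {ι : Type} [Fintype ι] [DecidableEq ι]

set_option linter.unusedSectionVars false

theorem sg_comp (π : ι → Perm ι) (τ : Perm ι) : sg (fun k => π (τ k)) = sg π := by
  unfold sg
  exact Equiv.prod_comp τ (fun k => (sign (π k) : ℤ))

theorem sg_mul_even (hev : Even (Fintype.card ι)) (π : ι → Perm ι) (β : Perm ι) :
    sg (fun k => π k * β) = sg π := by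
  unfold sg
  simp only [Equiv.Perm.sign_mul, Units.val_mul, Finset.prod_mul_distrib]
  rw [Finset.prod_const, Finset.card_univ]
  obtain ⟨m, hm⟩ := hev
  rw [hm]
  rcases Int.units_eq_one_or (sign β) with h | h <;> simp [h]

theorem Lat.comp {π : ι → Perm ι} (h : Lat π) (τ : Perm ι) : Lat (fun k => π (τ k)) := by
  intro l j
  obtain ⟨k, hk, hu⟩ := h l j
  refine ⟨τ.symm k, by simpa using hk, fun k' hk' => ?_⟩
  rw [← hu _ hk']; simp

theorem Lat.mul_right {π : ι → Perm ι} (h : Lat π) (β : Perm ι) : Lat (fun k => π k * β) := by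
  intro l j
  exact h (β l) j

theorem Lat.inj {π : ι → Perm ι} (h : Lat π) (l : ι) : Function.Injective fun k => π k l := by
  intro a b hab
  exact (h l (π b l)).unique hab rfl

theorem Lat.inj' {π : ι → Perm ι} (h : Lat π) (j : ι) :
    Function.Injective fun k => (π k).symm j := by
  intro a b hab
  refine (h ((π a).symm j) j).unique (by simp) ?_
  show π b ((π a).symm j) = j
  simp only at hab
  rw [hab]; simp

open Classical in
noncomputable def A1 (z : ι) : ℤ :=
  ∑ π : ι → Perm ι, if Lat π ∧ (∀ k, π k z = k) then sg π else 0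

theorem A1_eq (z : ι) (τ : Perm ι) [DecidablePred fun π : ι → Perm ι => Lat π ∧ ∀ k, π k z = τ k] :
    A1 z = ∑ π : ι → Perm ι, if Lat π ∧ (∀ k, π k z = τ k) then sg π else 0 := by
  classical
  unfold A1
  refine Fintype.sum_equiv (Equiv.arrowCongr τ.symm (Equiv.refl (Perm ι))) _ _ ?_
  intro π
  have e : (Equiv.arrowCongr τ.symm (Equiv.refl (Perm ι))) π = fun k => π (τ k) := by
    funext k
    simp [Equiv.arrowCongr]
  rw [e, sg_comp]
  have h1 : (Lat π ∧ ∀ k, π k z = k) ↔ (Lat (fun k => π (τ k)) ∧ ∀ k, π (τ k) z = τ k) := by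
    constructor
    · rintro ⟨h, h'⟩
      exact ⟨h.comp τ, fun k => h' _⟩
    · rintro ⟨h, h'⟩
      refine ⟨?_, fun k => ?_⟩
      · have := h.comp τ.symm
        simpa using this
      · have := h' (τ.symm k)
        simpa using this
  by_cases hc : (Lat π ∧ ∀ k, π k z = k)
  · rw [if_pos hc, if_pos (h1.1 hc)]
  · rw [if_neg hc, if_neg (fun h => hc (h1.2 h))]

theorem Asum_eq (z : ι) : Asum ι = (Fintype.card ι).factorial * A1 z := by
  classical
  have h : ∑ _τ : Perm ι, A1 z = ∑ τ : Perm ι, ∑ π : ι → Perm ι,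
      if Lat π ∧ (∀ k, π k z = τ k) then sg π else 0 :=
    Finset.sum_congr rfl fun τ _ => A1_eq z τ
  rw [Finset.sum_const, Finset.card_univ, Fintype.card_perm, nsmul_eq_mul] at h
  rw [h, Finset.sum_comm]
  unfold Asum
  refine Finset.sum_congr rfl fun π _ => ?_
  by_cases hl : Lat π
  · rw [if_pos hl]
    let τ0 : Perm ι := Equiv.ofBijective (fun k => π k z)
      (Finite.injective_iff_bijective.1 (hl.inj z))
    rw [Finset.sum_eq_single τ0]
    · rw [if_pos]
      exact ⟨hl, fun k => rfl⟩
    · intro τ _ hτ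
      rw [if_neg]
      rintro ⟨-, h'⟩
      exact hτ (Equiv.ext fun k => (h' k).symm)
    · simp
  · rw [if_neg hl]
    symm
    refine Finset.sum_eq_zero fun τ _ => ?_
    rw [if_neg]
    exact fun h' => hl h'.1

theorem rho_eq (hev : Even (Fintype.card ι)) (z : ι) (β : Perm ι) (hβ : β z = z)
    [DecidablePred fun π : ι → Perm ι => Lat π ∧ (∀ k, π k z = k) ∧ (∀ k, π k (β k) = z)] :
    rho ι z = ∑ π : ι → Perm ι,
      if Lat π ∧ (∀ k, π k z = k) ∧ (∀ k, π k (β k) = z) then sg π else 0 := by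
  classical
  unfold rho
  refine Fintype.sum_equiv (Equiv.piCongrRight fun _ : ι => Equiv.mulRight β⁻¹) _ _ ?_
  intro π
  have e : (Equiv.piCongrRight fun _ : ι => Equiv.mulRight β⁻¹) π = fun k => π k * β⁻¹ := rfl
  rw [e, sg_mul_even hev]
  have hz : β⁻¹ z = z := by rw [Equiv.Perm.inv_eq_iff_eq, hβ]
  have h1 : (Lat π ∧ (∀ k, π k z = k) ∧ (∀ k, π k k = z)) ↔
      (Lat (fun k => π k * β⁻¹) ∧ (∀ k, (π k * β⁻¹) z = k) ∧ (∀ k, (π k * β⁻¹) (β k) = z)) := by
    constructor
    · rintro ⟨h, h', h''⟩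
      refine ⟨h.mul_right _, fun k => ?_, fun k => ?_⟩
      · rw [Equiv.Perm.mul_apply, hz, h']
      · simp [Equiv.Perm.mul_apply, h'']
    · rintro ⟨h, h', h''⟩
      refine ⟨?_, fun k => ?_, fun k => ?_⟩
      · have := h.mul_right β
        simpa [mul_assoc] using this
      · have := h' k
        rwa [Equiv.Perm.mul_apply, hz] at this
      · have := h'' k
        simpa [Equiv.Perm.mul_apply] using this
  by_cases hc : (Lat π ∧ (∀ k, π k z = k) ∧ (∀ k, π k k = z))
  · rw [if_pos hc, if_pos (h1.1 hc)]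
  · rw [if_neg hc, if_neg (fun h => hc (h1.2 h))]

theorem card_fix (z : ι) : (univ.filter (fun β : Perm ι => β z = z)).card =
    (Fintype.card ι - 1).factorial := by
  classical
  have e : {β : Perm ι // β z = z} ≃ Perm {x : ι // x ≠ z} := by
    refine (Equiv.trans (Equiv.subtypeEquivRight fun β => ?_)
      (Equiv.Perm.subtypeEquivSubtypePerm (fun x : ι => x ≠ z)).symm)
    constructor
    · intro h a ha
      rw [not_not] at ha
      rw [ha, h]
    · intro h
      exact h z (by simp)
  rw [← Fintype.card_subtype, Fintype.card_congr e, Fintype.card_perm]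
  congr 1
  rw [Fintype.card_subtype_compl, Fintype.card_subtype_eq]

theorem A1_eq_rho (hev : Even (Fintype.card ι)) (z : ι) :
    A1 z = (Fintype.card ι - 1).factorial * rho ι z := by
  classical
  have h : ∑ _β ∈ univ.filter (fun β : Perm ι => β z = z), rho ι z =
      ∑ β ∈ univ.filter (fun β : Perm ι => β z = z), ∑ π : ι → Perm ι,
      if Lat π ∧ (∀ k, π k z = k) ∧ (∀ k, π k (β k) = z) then sg π else 0 :=
    Finset.sum_congr rfl fun β hβ => rho_eq hev z β (Finset.mem_filter.1 hβ).2
  rw [Finset.sum_const, card_fix, nsmul_eq_mul] at h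
  rw [h, Finset.sum_comm]
  unfold A1
  refine Finset.sum_congr rfl fun π _ => ?_
  by_cases hl : Lat π ∧ ∀ k, π k z = k
  · rw [if_pos hl]
    let β0 : Perm ι := Equiv.ofBijective (fun k => (π k).symm z)
      (Finite.injective_iff_bijective.1 (hl.1.inj' z))
    have hβ0 : β0 z = z := by
      show (π z).symm z = z
      rw [Equiv.symm_apply_eq]
      exact (hl.2 z).symm
    rw [Finset.sum_eq_single β0]
    · rw [if_pos]
      refine ⟨hl.1, hl.2, fun k => ?_⟩
      show π k ((π k).symm z) = z
      simp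
    · intro β _ hβ
      rw [if_neg]
      rintro ⟨-, -, h'⟩
      apply hβ
      ext k
      show β k = (π k).symm z
      rw [Equiv.eq_symm_apply]
      exact h' k
    · intro hc
      exact absurd (by rw [Finset.mem_filter]; exact ⟨Finset.mem_univ _, hβ0⟩) hc
  · rw [if_neg hl]
    symm
    refine Finset.sum_eq_zero fun β _ => ?_
    rw [if_neg]
    exact fun h' => hl ⟨h'.1, h'.2.1⟩

/-- `A = n! (n-1)! rho` for even orders. -/
theorem Asum_eq_rho (hev : Even (Fintype.card ι)) (z : ι) :
    Asum ι = (Fintype.card ι).factorial * ((Fintype.card ι - 1).factorial * rho ι z) := by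
  rw [Asum_eq z, A1_eq_rho hev z]

end Pool.Agent.TH437.RL
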