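import Mathlib
import Pool.Agent.TH437.Norm

set_option autoImplicit false

namespace Pool.Agent.TH437.RL

open Finset Equiv Equiv.Perm

variable {ι : Type} [Fintype ι] [DecidableEq ι]

set_option linter.unusedSectionVars false

/-- extension of a family on `ι` to a family on `Option ι` -/
def ext (π : Option ι → Perm ι) : Option ι → Perm (Option ι) :=
  fun o => swap none o * optionCongr (π o)

theorem ext_none (π : Option ι → Perm ι) (o : Option ι) : ext π o none = o := by
  simp [ext, Equiv.Perm.mul_apply]

theorem ext_some_eq_none (π : Option ι → Perm ι) (o : Option ι) (a : ι) :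
    ext π o (some a) = none ↔ o = some (π o a) := by
  simp only [ext, Equiv.Perm.mul_apply, optionCongr_apply, Option.map_some]
  constructor
  · intro h
    by_contra hc
    rw [swap_apply_of_ne_of_ne] at h
    · exact absurd h (by simp)
    · simp
    · exact fun h' => hc h'.symm
  · intro h
    conv_lhs => rw [← h]
    simp

theorem ext_some_eq_some (π : Option ι → Perm ι) (o : Option ι) (a b : ι) :
    ext π o (some a) = some b ↔ (o ≠ some b ∧ π o a = b) := by
  simp only [ext, Equiv.Perm.mul_apply, optionCongr_apply, Option.map_some]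
  by_cases h : o = some (π o a)
  · conv_lhs => rw [← h]
    rw [swap_apply_right]
    constructor
    · intro h'
      exact absurd h' (by simp)
    · rintro ⟨h1, h2⟩
      rw [h2] at h
      exact absurd h h1
  · rw [swap_apply_of_ne_of_ne (by simp) (fun h' => h h'.symm)]
    constructor
    · intro h'
      have h2 : π o a = b := Option.some.inj h'
      rw [h2] at h
      exact ⟨h, h2⟩
    · rintro ⟨-, h2⟩
      rw [h2]

theorem sg_ext (hev : Even (Fintype.card ι)) (π : Option ι → Perm ι) : sg (ext π) = sg π := by
  unfold sg ext
  simp only [Equiv.Perm.sign_mul, Units.val_mul, Finset.prod_mul_distrib, optionCongr_sign]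
  rw [Fintype.prod_option]
  have : ∏ k : ι, ((sign (swap none (some k)) : ℤˣ) : ℤ) = 1 := by
    rw [Finset.prod_congr rfl fun k _ => by
      rw [sign_swap (by simp : (none : Option ι) ≠ some k)]]
    rw [Finset.prod_const, Finset.card_univ]
    obtain ⟨m, hm⟩ := hev
    rw [hm]
    simp
  rw [this]
  simp

theorem ext_cond (π : Option ι → Perm ι) :
    ((∀ k, π (some k) k = (1 : Perm ι) k) ∧ (∀ l j, ∃! o, ¬ (o = some l) ∧ π o l = j)) ↔
    (Lat (ext π) ∧ (∀ k, ext π k none = k) ∧ (∀ k, ext π k k = none)) := by
  have hd : (∀ k, ext π k k = none) ↔ (∀ k, π (some k) k = (1 : Perm ι) k) := by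
    rw [Option.forall]
    constructor
    · rintro ⟨-, h⟩ k
      have := (ext_some_eq_none π (some k) k).1 (h k)
      simpa using (Option.some.inj this).symm
    · intro h
      refine ⟨ext_none _ _, fun k => ?_⟩
      rw [ext_some_eq_none, h k]
      simp
  rw [hd]
  constructor
  · rintro ⟨h1, h2⟩
    refine ⟨?_, ext_none π, h1⟩
    intro l j
    rcases l with _ | a
    · refine ⟨j, ext_none _ _, fun o ho => ?_⟩
      rw [← ho]; exact (ext_none π o).symm
    · rcases j with _ | b
      · refine ⟨some a, ?_, fun o ho => ?_⟩
        · show ext π (some a) (some a) = none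
          rw [ext_some_eq_none, h1 a]
          simp
        · have ho' := (ext_some_eq_none π o a).1 ho
          obtain ⟨k, rfl⟩ : ∃ k, o = some k := ⟨_, ho'⟩
          have h3 : k = π (some k) a := Option.some.inj ho'
          have h4 : π (some k) k = k := by simpa using h1 k
          have h5 : π (some k) k = π (some k) a := by rw [← h3, h4]
          rw [(π (some k)).injective h5]
      · obtain ⟨o, ⟨ho1, ho2⟩, hu⟩ := h2 a b
        have key : ∀ o, (¬ (o = some a) ∧ π o a = b) ↔ ext π o (some a) = some b := by
          intro o
          rw [ext_some_eq_some]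
          constructor
          · rintro ⟨h3, h4⟩
            refine ⟨?_, h4⟩
            rintro rfl
            have h5 : π (some b) b = b := by simpa using h1 b
            have h6 : a = b := (π (some b)).injective (h4.trans h5.symm)
            exact h3 (by rw [h6])
          · rintro ⟨h3, h4⟩
            refine ⟨?_, h4⟩
            rintro rfl
            have h5 : π (some a) a = a := by simpa using h1 a
            have h6 : a = b := h5.symm.trans h4
            exact h3 (by rw [h6])
        exact ⟨o, (key o).1 ⟨ho1, ho2⟩, fun o' ho' => hu o' ((key o').2 ho')⟩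
  · rintro ⟨h1, -, h2⟩
    refine ⟨h2, ?_⟩
    intro a b
    have key : ∀ o, (¬ (o = some a) ∧ π o a = b) ↔ ext π o (some a) = some b := by
      intro o
      rw [ext_some_eq_some]
      constructor
      · rintro ⟨h3, h4⟩
        refine ⟨?_, h4⟩
        rintro rfl
        have h5 : π (some b) b = b := by simpa using h2 b
        have h6 : a = b := (π (some b)).injective (h4.trans h5.symm)
        exact h3 (by rw [h6])
      · rintro ⟨h3, h4⟩
        refine ⟨?_, h4⟩
        rintro rfl
        have h5 : π (some a) a = a := by simpa using h2 a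
        have h6 : a = b := h5.symm.trans h4
        exact h3 (by rw [h6])
    obtain ⟨o, ho, hu⟩ := h1 (some a) (some b)
    exact ⟨o, (key o).2 ho, fun o' ho' => hu o' ((key o').1 ho')⟩

theorem ext_surj (p : Option ι → Perm (Option ι)) (h : ∀ k, p k none = k) :
    ext (fun o => removeNone (p o)) = p := by
  funext o
  have h1 := Equiv.Perm.decomposeOption.left_inv (p o)
  have h2 : Equiv.Perm.decomposeOption (p o) = (p o none, removeNone (p o)) := rfl
  rw [← h1]
  show _ = Equiv.Perm.decomposeOption.symm (Equiv.Perm.decomposeOption (p o))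
  rw [h2, h o]
  rfl

theorem ext_left (π : Option ι → Perm ι) (o : Option ι) : removeNone (ext π o) = π o := by
  have h := Equiv.Perm.decomposeOption.right_inv (o, π o)
  exact (Prod.ext_iff.1 h).2

theorem Wsum_eq_rho (hev : Even (Fintype.card ι)) :
    Wsum (1 : Perm ι) = rho (Option ι) none := by
  classical
  unfold Wsum rho
  rw [← Finset.sum_filter, ← Finset.sum_filter]
  refine Finset.sum_bij' (fun π _ => ext π) (fun p _ => fun o => removeNone (p o)) ?_ ?_ ?_ ?_ ?_
  · intro π hπ
    rw [Finset.mem_filter] at hπ ⊢
    exact ⟨Finset.mem_univ _, (ext_cond π).1 hπ.2⟩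
  · intro p hp
    rw [Finset.mem_filter] at hp ⊢
    refine ⟨Finset.mem_univ _, (ext_cond (fun o => removeNone (p o))).2 ?_⟩
    rw [ext_surj p hp.2.2.1]
    exact hp.2
  · intro π _
    funext o
    exact ext_left π o
  · intro p hp
    rw [Finset.mem_filter] at hp
    exact ext_surj p hp.2.2.1
  · intro π _
    exact (sg_ext hev π).symm

/-- The main identity for the signed numbers of reduced families. -/
theorem rho_option (hev : Even (Fintype.card ι)) (z : ι) :
    rho (Option ι) none = (Fintype.card ι - 1).factorial * rho ι z := by
  have h0 : 0 < Fintype.card ι := Fintype.card_pos_iff.2 ⟨z⟩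
  have h1 := fact_mul_W (ι := ι) hev h0
  rw [Asum_eq_rho hev z, Wsum_eq_rho hev] at h1
  have h2 : ((Fintype.card ι).factorial : ℤ) ≠ 0 := by
    exact_mod_cast Nat.factorial_ne_zero _
  exact mul_left_cancel₀ h2 h1

end Pool.Agent.TH437.RL
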