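import Mathlib
import Pool.Agent.TH437.Ext

set_option autoImplicit false

namespace Pool.Agent.TH437.RL

open Finset Equiv Equiv.Perm

variable {ι : Type} [Fintype ι] [DecidableEq ι]

set_option linter.unusedSectionVars false

/-- Row and column permutations of a reduced latin square. -/
def Red (z : ι) (p : (ι → Perm ι) × (ι → Perm ι)) : Prop :=
  (∀ i j, p.1 i j = p.2 j i) ∧ (∀ j, p.1 z j = j) ∧ (∀ i, p.1 i z = i)

/-- The symbol permutations. -/
def sym (p : (ι → Perm ι) × (ι → Perm ι)) (h : ∀ i j, p.1 i j = p.2 j i) (k : ι) : Perm ι where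
  toFun i := (p.1 i).symm k
  invFun j := (p.2 j).symm k
  left_inv i := by
    show (p.2 ((p.1 i).symm k)).symm k = i
    rw [Equiv.symm_apply_eq, ← h]; simp
  right_inv j := by
    show (p.1 ((p.2 j).symm k)).symm k = j
    rw [Equiv.symm_apply_eq, h]; simp

/-- The sign of the transposition of coordinates. -/
def eps (ι : Type) [Fintype ι] [DecidableEq ι] : ℤ := (sign (Equiv.prodComm ι ι : Perm (ι × ι)) : ℤ)

theorem janssen (p : (ι → Perm ι) × (ι → Perm ι)) (h : ∀ i j, p.1 i j = p.2 j i) :
    ((∏ i, sign (p.1 i)) * ∏ j, sign (p.2 j) : ℤˣ) =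
      sign (Equiv.prodComm ι ι : Perm (ι × ι)) * ∏ k, sign (sym p h k) := by
  have h1 : (Equiv.prodComm ι ι : Perm (ι × ι)) * prodCongrRight p.2 *
      (Equiv.prodComm ι ι : Perm (ι × ι)) =
      prodCongrRight (sym p h) * (Equiv.prodComm ι ι : Perm (ι × ι)) * prodCongrRight p.1 := by
    ext ⟨i, j⟩
    · simp [Equiv.Perm.mul_apply, sym, h]
    · simp [Equiv.Perm.mul_apply, sym]
  have h2 := congrArg sign h1
  simp only [Equiv.Perm.sign_mul, sign_prodCongrRight] at h2
  generalize sign (Equiv.prodComm ι ι : Perm (ι × ι)) = e at h2 ⊢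
  generalize ∏ k, sign (sym p h k) = s at h2 ⊢
  generalize ∏ i, sign (p.1 i) = a at h2 ⊢
  generalize ∏ j, sign (p.2 j) = b at h2 ⊢
  rcases Int.units_eq_one_or e with rfl | rfl <;> rcases Int.units_eq_one_or s with rfl | rfl <;>
  rcases Int.units_eq_one_or a with rfl | rfl <;> rcases Int.units_eq_one_or b with rfl | rfl <;>
  simp_all

theorem sym_lat (p : (ι → Perm ι) × (ι → Perm ι)) (h : ∀ i j, p.1 i j = p.2 j i) :
    Lat (sym p h) := by
  intro l j
  refine ⟨p.1 l j, ?_, fun k hk => ?_⟩
  · show (p.1 l).symm (p.1 l j) = j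
    simp
  · have hk' : (p.1 l).symm k = j := hk
    rw [Equiv.symm_apply_eq] at hk'
    exact hk'

/-- rows of a family -/
noncomputable def rowOf (π : ι → Perm ι) (h : Lat π) (l : ι) : Perm ι :=
  (Equiv.ofBijective (fun k => π k l) (Finite.injective_iff_bijective.1 (h.inj l))).symm

/-- columns of a family -/
noncomputable def colOf (π : ι → Perm ι) (h : Lat π) (j : ι) : Perm ι :=
  (Equiv.ofBijective (fun k => (π k).symm j) (Finite.injective_iff_bijective.1 (h.inj' j))).symm

theorem rowOf_eq (π : ι → Perm ι) (h : Lat π) (l j k : ι) : rowOf π h l j = k ↔ π k l = j := by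
  unfold rowOf
  rw [Equiv.symm_apply_eq]
  exact ⟨fun h => h.symm, fun h => h.symm⟩

theorem colOf_eq (π : ι → Perm ι) (h : Lat π) (l j k : ι) : colOf π h j l = k ↔ π k l = j := by
  unfold colOf
  rw [Equiv.symm_apply_eq]
  show l = (π k).symm j ↔ _
  rw [Equiv.eq_symm_apply]

theorem row_col (π : ι → Perm ι) (h : Lat π) (l j : ι) : rowOf π h l j = colOf π h j l := by
  rw [rowOf_eq, ← colOf_eq π h l j]

open Classical in
/-- The signed number of reduced latin squares with rows and columns indexed by `ι`. -/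
noncomputable def Tsum (ι : Type) [Fintype ι] [DecidableEq ι] (z : ι) : ℤ :=
  ∑ p : (ι → Perm ι) × (ι → Perm ι), if Red z p then
    (((∏ i, sign (p.1 i)) * ∏ j, sign (p.2 j) : ℤˣ) : ℤ) else 0

theorem Tsum_eq (z : ι) : Tsum ι z = eps ι * rho ι z := by
  classical
  unfold Tsum rho
  rw [← Finset.sum_filter, ← Finset.sum_filter, Finset.mul_sum]
  refine Finset.sum_bij' (fun p hp => sym p (Finset.mem_filter.1 hp).2.1)
    (fun π hπ => (rowOf π (Finset.mem_filter.1 hπ).2.1, colOf π (Finset.mem_filter.1 hπ).2.1))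
    ?_ ?_ ?_ ?_ ?_
  · intro p hp
    have hp' := (Finset.mem_filter.1 hp).2
    rw [Finset.mem_filter]
    refine ⟨Finset.mem_univ _, sym_lat p hp'.1, fun k => ?_, fun k => ?_⟩
    · show (p.1 z).symm k = k
      rw [Equiv.symm_apply_eq, hp'.2.1]
    · show (p.1 k).symm k = z
      rw [Equiv.symm_apply_eq, hp'.2.2]
  · intro π hπ
    have hπ' := (Finset.mem_filter.1 hπ).2
    rw [Finset.mem_filter]
    refine ⟨Finset.mem_univ _, fun i j => row_col π hπ'.1 i j, fun j => ?_, fun i => ?_⟩
    · exact (rowOf_eq π hπ'.1 z j j).2 (hπ'.2.1 j)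
    · exact (rowOf_eq π hπ'.1 i z i).2 (hπ'.2.2 i)
  · intro p hp
    have hp' := (Finset.mem_filter.1 hp).2
    refine Prod.ext ?_ ?_
    · funext l
      ext j
      have h1 : rowOf (sym p hp'.1) (sym_lat p hp'.1) l j = p.1 l j := by
        rw [rowOf_eq]
        show (p.1 l).symm (p.1 l j) = j
        simp
      exact h1
    · funext j
      ext l
      have h1 : colOf (sym p hp'.1) (sym_lat p hp'.1) j l = p.2 j l := by
        rw [colOf_eq]
        show (p.1 l).symm (p.2 j l) = j
        rw [← hp'.1]; simp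
      exact h1
  · intro π hπ
    funext k
    ext i
    have hl := (Finset.mem_filter.1 hπ).2.1
    have h1 : (rowOf π hl i).symm k = π k i := by
      rw [Equiv.symm_apply_eq]
      symm
      rw [rowOf_eq]
    exact h1
  · intro p hp
    rw [janssen p (Finset.mem_filter.1 hp).2.1]
    unfold eps sg
    push_cast
    rfl

theorem eps_eq (ι : Type) [Fintype ι] [DecidableEq ι] :
    eps ι = (-1) ^ ((Fintype.card ι * (Fintype.card ι - 1)) / 2) := by
  set τ : Perm (ι × ι) := Equiv.prodComm ι ι with hτ
  have h1 : τ ^ 2 = 1 := by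
    rw [pow_two]
    ext ⟨a, b⟩ <;> simp [hτ, Equiv.Perm.mul_apply]
  have h2 : ∀ c ∈ τ.cycleType, c = 2 := pow_prime_eq_one_iff.1 h1
  have h3 : τ.cycleType = Multiset.replicate τ.cycleType.card 2 :=
    Multiset.eq_replicate.2 ⟨rfl, h2⟩
  have h4 : τ.support.card = Fintype.card ι * (Fintype.card ι - 1) := by
    have h5 : τ.support = univ \ (univ.filter fun p : ι × ι => p.1 = p.2) := by
      ext ⟨a, b⟩
      simp only [Equiv.Perm.mem_support, Finset.mem_sdiff, Finset.mem_univ, true_and,
        Finset.mem_filter, hτ, Equiv.coe_prodComm, Prod.swap_prod_mk, ne_eq, Prod.mk.injEq]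
      constructor
      · rintro h rfl
        exact h ⟨rfl, rfl⟩
      · rintro h ⟨h', -⟩
        exact h h'.symm
    have h6 : (univ.filter fun p : ι × ι => p.1 = p.2).card = Fintype.card ι := by
      rw [← Finset.card_univ (α := ι)]
      refine Finset.card_bij' (fun p _ => p.1) (fun a _ => (a, a)) ?_ ?_ ?_ ?_
      · intros; simp
      · intros; simp
      · rintro ⟨a, b⟩ h
        simp only [Finset.mem_filter, Finset.mem_univ, true_and] at h
        simp [h]
      · intros; rfl
    rw [h5, Finset.card_sdiff_of_subset (Finset.subset_univ _), h6, Finset.card_univ,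
      Fintype.card_prod]
    cases Fintype.card ι with
    | zero => simp
    | succ n => simp; ring_nf; omega
  have h7 : τ.cycleType.sum = 2 * τ.cycleType.card := by
    conv_lhs => rw [h3]
    simp [mul_comm]
  have h8 : τ.cycleType.card = (Fintype.card ι * (Fintype.card ι - 1)) / 2 := by
    have := sum_cycleType τ
    rw [h4, h7] at this
    omega
  have h9 : sign τ = (-1) ^ (3 * τ.cycleType.card) := by
    rw [sign_of_cycleType, h7]
    congr 1
    ring
  unfold eps
  rw [← hτ, h9, h8, pow_mul]
  norm_num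

theorem rho_congr {κ : Type} [Fintype κ] [DecidableEq κ] (e : ι ≃ κ) (z : ι) :
    rho ι z = rho κ (e z) := by
  classical
  unfold rho
  refine Fintype.sum_equiv (Equiv.arrowCongr e e.permCongr) _ _ ?_
  intro π
  have e1 : (Equiv.arrowCongr e e.permCongr) π = fun k => e.permCongr (π (e.symm k)) := by
    funext k; rfl
  rw [e1]
  have h1 : (Lat π ∧ (∀ k, π k z = k) ∧ (∀ k, π k k = z)) ↔
      (Lat (fun k => e.permCongr (π (e.symm k))) ∧
        (∀ k, e.permCongr (π (e.symm k)) (e z) = k) ∧
        (∀ k, e.permCongr (π (e.symm k)) k = e z)) := by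
    refine and_congr ?_ (and_congr ?_ ?_)
    · constructor
      · intro h l j
        obtain ⟨k, hk, hu⟩ := h (e.symm l) (e.symm j)
        refine ⟨e k, ?_, fun k' hk' => ?_⟩
        · simp [Equiv.permCongr_apply, hk]
        · rw [← e.symm_apply_eq]
          apply hu
          rw [Equiv.eq_symm_apply]
          simpa [Equiv.permCongr_apply] using hk'
      · intro h l j
        obtain ⟨k, hk, hu⟩ := h (e l) (e j)
        simp only [Equiv.permCongr_apply, Equiv.symm_apply_apply] at hk
        refine ⟨e.symm k, e.injective hk, fun k' hk' => ?_⟩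
        rw [Equiv.eq_symm_apply]
        apply hu
        simp [Equiv.permCongr_apply, hk']
    · constructor
      · intro h k
        simp [Equiv.permCongr_apply, h]
      · intro h k
        have := h (e k)
        simp only [Equiv.permCongr_apply, Equiv.symm_apply_apply] at this
        exact e.injective this
    · constructor
      · intro h k
        simp [Equiv.permCongr_apply, h]
      · intro h k
        have := h (e k)
        simp only [Equiv.permCongr_apply, Equiv.symm_apply_apply] at this
        exact e.injective this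
  have h2 : sg (fun k => e.permCongr (π (e.symm k))) = sg π := by
    unfold sg
    simp only [sign_permCongr]
    exact Equiv.prod_comp e.symm (fun k => (sign (π k) : ℤ))
  rw [h2]
  by_cases hc : (Lat π ∧ (∀ k, π k z = k) ∧ (∀ k, π k k = z))
  · rw [if_pos hc, if_pos (h1.1 hc)]
  · rw [if_neg hc, if_neg (fun h => hc (h1.2 h))]

/-- The identity for the signed numbers of reduced latin squares. -/
theorem Tsum_succ (m : ℕ) (hm : Even m) (z : Fin m) :
    Tsum (Fin (m + 1)) 0 = (m - 1).factorial * Tsum (Fin m) z := by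
  have h1 : rho (Fin (m + 1)) 0 = rho (Option (Fin m)) none := by
    have := rho_congr (finSuccEquiv m) 0
    rwa [finSuccEquiv_zero] at this
  have h2 := rho_option (ι := Fin m) (by simpa using hm) z
  rw [Tsum_eq, Tsum_eq, h1, h2, eps_eq, eps_eq]
  simp only [Fintype.card_fin]
  obtain ⟨a, rfl⟩ := hm
  have ha : 0 < a := by
    have := z.pos
    omega
  have e1 : (a + a + 1) * (a + a + 1 - 1) / 2 = (2 * a + 1) * a := by
    have : (a + a + 1) * (a + a + 1 - 1) = ((2 * a + 1) * a) * 2 := by
      rw [Nat.add_sub_cancel]; ring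
    rw [this, Nat.mul_div_cancel _ (by norm_num)]
  have e2 : (a + a) * (a + a - 1) / 2 = a * (2 * a - 1) := by
    have : (a + a) * (a + a - 1) = (a * (2 * a - 1)) * 2 := by
      rw [← two_mul]; ring
    rw [this, Nat.mul_div_cancel _ (by norm_num)]
  rw [e1, e2]
  have e3 : (-1 : ℤ) ^ ((2 * a + 1) * a) = (-1) ^ (a * (2 * a - 1)) := by
    obtain ⟨b, rfl⟩ : ∃ b, a = b + 1 := ⟨a - 1, by omega⟩
    have : (2 * (b + 1) + 1) * (b + 1) = (b + 1) * (2 * (b + 1) - 1) + 2 * (b + 1) := by
      rw [show 2 * (b + 1) - 1 = 2 * b + 1 by omega]; ring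
    rw [this, pow_add, pow_mul (-1 : ℤ) 2]
    simp
  rw [e3]
  ring

end Pool.Agent.TH437.RL
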