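import Mathlib
import Pool.Agent.TH437.Sq

/-!
# Reduced even and odd Latin squares: definitions
-/

set_option autoImplicit false

namespace Pool.Agent.TH437.ReducedLS

open Finset Equiv Equiv.Perm

/-- A reduced Latin square of order `n` with rows, columns and symbols `0, …, n - 1`, given by its
row permutations `p.1` (`p.1 i j` is the entry in row `i` and column `j`) and its column
permutations `p.2` (`p.2 j i` is the same entry): the first row and the first column are the
identity. -/
def IsReduced {n : ℕ} (p : (Fin n → Perm (Fin n)) × (Fin n → Perm (Fin n))) : Prop :=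
  (∀ i j : Fin n, p.1 i j = p.2 j i) ∧ (∀ i j : Fin n, i.val = 0 → p.1 i j = j) ∧
    (∀ i j : Fin n, j.val = 0 → p.1 i j = i)

/-- The sign: the product of the signs of all row and all column permutations. -/
def sgn {n : ℕ} (p : (Fin n → Perm (Fin n)) × (Fin n → Perm (Fin n))) : ℤˣ :=
  (∏ i : Fin n, sign (p.1 i)) * (∏ j : Fin n, sign (p.2 j))

/-- The number of reduced even Latin squares of order `n`. -/
noncomputable def rels (n : ℕ) : ℕ :=
  Nat.card {p : (Fin n → Perm (Fin n)) × (Fin n → Perm (Fin n)) // IsReduced p ∧ sgn p = 1}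

/-- The number of reduced odd Latin squares of order `n`. -/
noncomputable def rols (n : ℕ) : ℕ :=
  Nat.card {p : (Fin n → Perm (Fin n)) × (Fin n → Perm (Fin n)) // IsReduced p ∧ sgn p = -1}

theorem diff_eq (n : ℕ) (z : Fin n) (hz : z.val = 0) :
    (rels n : ℤ) - rols n = Pool.Agent.TH437.RL.Tsum (Fin n) z := by
  classical
  unfold rels rols Pool.Agent.TH437.RL.Tsum
  rw [Nat.card_eq_fintype_card, Nat.card_eq_fintype_card, Fintype.card_subtype,
    Fintype.card_subtype]
  have h1 : ∀ p : (Fin n → Perm (Fin n)) × (Fin n → Perm (Fin n)),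
      Pool.Agent.TH437.RL.Red z p ↔ IsReduced p := by
    intro p
    unfold Pool.Agent.TH437.RL.Red IsReduced
    refine and_congr Iff.rfl (and_congr ?_ ?_)
    · constructor
      · intro h i j hi
        have : i = z := Fin.ext (by omega)
        rw [this]; exact h j
      · intro h j
        exact h z j hz
    · constructor
      · intro h i j hj
        have : j = z := Fin.ext (by omega)
        rw [this]; exact h i
      · intro h i
        exact h i z hz
  have h2 : ∀ p : (Fin n → Perm (Fin n)) × (Fin n → Perm (Fin n)),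
      (if Pool.Agent.TH437.RL.Red z p then
        (((∏ i, sign (p.1 i)) * ∏ j, sign (p.2 j) : ℤˣ) : ℤ) else 0) =
      (if IsReduced p ∧ sgn p = 1 then (1 : ℤ) else 0) -
        (if IsReduced p ∧ sgn p = -1 then (1 : ℤ) else 0) := by
    intro p
    by_cases hp : IsReduced p
    · rw [if_pos ((h1 p).2 hp)]
      have h3 : ((∏ i, sign (p.1 i)) * ∏ j, sign (p.2 j) : ℤˣ) = sgn p := rfl
      rw [h3]
      rcases Int.units_eq_one_or (sgn p) with h | h
      · rw [h, if_pos ⟨hp, rfl⟩, if_neg]
        · simp
        · rintro ⟨-, hc⟩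
          exact absurd hc (by decide)
      · rw [h, if_neg, if_pos ⟨hp, rfl⟩]
        · simp
        · rintro ⟨-, hc⟩
          exact absurd hc (by decide)
    · rw [if_neg (fun h => hp ((h1 p).1 h)), if_neg (fun h => hp h.1), if_neg (fun h => hp h.1)]
      simp
  rw [Finset.sum_congr rfl fun p _ => h2 p, Finset.sum_sub_distrib]
  rw [Finset.sum_boole, Finset.sum_boole]

end Pool.Agent.TH437.ReducedLS
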