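import Mathlib
import Pool.Agent.TH437.Sq

set_option autoImplicit false

namespace Pool.Agent.TH437.RL

open Finset Equiv Equiv.Perm

section general

variable {ι : Type} [Fintype ι] [DecidableEq ι]

theorem sg_ext' (π : Option ι → Perm ι) :
    sg (ext π) = (-1) ^ Fintype.card ι * sg π := by
  unfold sg ext
  simp only [Equiv.Perm.sign_mul, Units.val_mul, Finset.prod_mul_distrib, optionCongr_sign]
  congr 1
  rw [Fintype.prod_option]
  have : ∏ k : ι, ((sign (swap none (some k)) : ℤˣ) : ℤ) = (-1) ^ Fintype.card ι := by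
    rw [Finset.prod_congr rfl fun k _ => by
      rw [sign_swap (by simp : (none : Option ι) ≠ some k)]]
    rw [Finset.prod_const, Finset.card_univ]
    simp
  rw [this]
  simp

theorem rho_option' : rho (Option ι) none = (-1) ^ Fintype.card ι * Wsum (1 : Perm ι) := by
  classical
  unfold Wsum rho
  rw [← Finset.sum_filter, ← Finset.sum_filter, Finset.mul_sum]
  symm
  refine Finset.sum_bij' (fun π _ => ext π) (fun p _ => fun o => removeNone (p o)) ?_ ?_ ?_ ?_ ?_
  · intro π hπ
    rw [Finset.mem_filter] at hπ ⊢
    exact ⟨Finset.mem_univ _, (ext_cond π).1 hπ.2⟩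
  · intro p hp
    rw [Finset.mem_filter] at hp ⊢
    refine ⟨Finset.mem_univ _, (ext_cond (fun o => removeNone (p o))).2 ?_⟩
    rw [ext_surj p hp.2.2.1]
    exact hp.2
  · intro π _
    funext o
    exact ext_left π o
  · intro p hp
    rw [Finset.mem_filter] at hp
    exact ext_surj p hp.2.2.1
  · intro π _
    exact (sg_ext' π).symm

end general

/-- Counting modulo `p` with a map of order `p`. -/
theorem card_modEq {p : ℕ} [hp : Fact p.Prime] {α : Type} [Fintype α] [DecidableEq α] (f : α → α)
    (hf : f^[p] = id) (P : α → Prop) [DecidablePred P] (hP : ∀ a, P a → P (f a)) :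
    (univ.filter P).card ≡ (univ.filter fun a => P a ∧ f a = a).card [MOD p] := by
  let g : Function.End {a // P a} := fun a => ⟨f a.1, hP _ a.2⟩
  have hg : ∀ (n : ℕ) (a : {a // P a}), ((g ^ n) a).1 = f^[n] a.1 := by
    intro n
    induction n with
    | zero => intro a; rfl
    | succ n ih =>
      intro a
      rw [Function.iterate_succ_apply, pow_succ]
      show ((g ^ n) (g a)).1 = _
      rw [ih]
  have h1 : g ^ p ^ 1 = 1 := by
    rw [pow_one]
    funext a
    apply Subtype.ext
    rw [hg, hf]
    rfl
  have h2 := Equiv.Perm.card_fixedPoints_modEq h1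
  rw [Fintype.card_subtype] at h2
  have h3 : Fintype.card ↑(Function.fixedPoints g) =
      (univ.filter fun a => P a ∧ f a = a).card := by
    rw [← Fintype.card_subtype]
    refine Fintype.card_congr
      { toFun := fun a => ⟨a.1.1, a.1.2, congrArg Subtype.val a.2⟩
        invFun := fun a => ⟨⟨a.1, a.2.1⟩, Subtype.ext a.2.2⟩
        left_inv := fun a => rfl
        right_inv := fun a => rfl }
  rw [h3] at h2
  exact h2

/-- Signed counting modulo `p` with a map of order `p`. -/
theorem sum_modEq {p : ℕ} [hp : Fact p.Prime] {α : Type} [Fintype α] [DecidableEq α] (f : α → α)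
    (hf : f^[p] = id) (w : α → ℤˣ) (hw : ∀ a, w (f a) = w a) :
    ((∑ a, (w a : ℤ) : ℤ) : ZMod p) = ((∑ a ∈ univ.filter (fun a => f a = a), (w a : ℤ) : ℤ) :
      ZMod p) := by
  have h1 : ∀ s : Finset α, ∑ a ∈ s, (w a : ℤ) =
      ((s.filter fun a => w a = 1).card : ℤ) - ((s.filter fun a => w a = -1).card : ℤ) := by
    intro s
    rw [Finset.card_filter, Finset.card_filter]
    push_cast
    rw [← Finset.sum_sub_distrib]
    refine Finset.sum_congr rfl fun a _ => ?_
    rcases Int.units_eq_one_or (w a) with h | h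
    · rw [h, if_pos rfl, if_neg (by decide)]; simp
    · rw [h, if_neg (by decide), if_pos rfl]; simp
  have h2 := card_modEq (p := p) f hf (fun a => w a = 1) (fun a ha => by rw [hw, ha])
  have h3 := card_modEq (p := p) f hf (fun a => w a = -1) (fun a ha => by rw [hw, ha])
  rw [← ZMod.natCast_eq_natCast_iff] at h2 h3
  rw [h1, h1]
  push_cast
  rw [h2, h3, Finset.filter_filter, Finset.filter_filter]
  congr 3
  · congr 1
    ext a; simp [and_comm]
  · congr 1
    ext a; simp [and_comm]

end Pool.Agent.TH437.RL
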