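import Mathlib
import Pool.Agent.TH437.Drisko

set_option autoImplicit false

namespace Pool.Agent.TH437.RL

open Finset Equiv Equiv.Perm

variable {p : ℕ} [hp : Fact p.Prime]

/-- cyclic shift of a family -/
def act (c : ZMod p) (π : Option (ZMod p) → Perm (ZMod p)) : Option (ZMod p) → Perm (ZMod p) :=
  fun o => ((Equiv.addRight c).symm.trans (π (o.map (· - c)))).trans (Equiv.addRight c)

theorem act_apply (c : ZMod p) (π : Option (ZMod p) → Perm (ZMod p)) (o : Option (ZMod p))
    (x : ZMod p) : act c π o x = π (o.map (· - c)) (x - c) + c := by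
  simp [act, sub_eq_add_neg]

theorem act_act (c d : ZMod p) (π : Option (ZMod p) → Perm (ZMod p)) :
    act c (act d π) = act (c + d) π := by
  funext o
  ext1 x
  rw [act_apply, act_apply, act_apply, Option.map_map]
  have : ((fun y : ZMod p => y - d) ∘ fun y => y - c) = fun y => y - (c + d) := by
    funext y; simp only [Function.comp]; ring
  rw [this, show x - c - d = x - (c + d) by ring]
  ring

theorem act_zero (π : Option (ZMod p) → Perm (ZMod p)) : act 0 π = π := by
  funext o
  ext1 x
  rw [act_apply]
  simp

/-- the condition on the families -/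
def Cond (π : Option (ZMod p) → Perm (ZMod p)) : Prop :=
  (∀ k, π (some k) k = (1 : Perm (ZMod p)) k) ∧ (∀ l j, ∃! o, ¬ (o = some l) ∧ π o l = j)

theorem Cond.act {π : Option (ZMod p) → Perm (ZMod p)} (h : Cond π) (c : ZMod p) :
    Cond (act c π) := by
  obtain ⟨h1, h2⟩ := h
  refine ⟨fun k => ?_, fun l j => ?_⟩
  · rw [act_apply]
    have := h1 (k - c)
    simp only [Equiv.Perm.coe_one, id_eq, Option.map_some] at this ⊢
    rw [this]; ring
  · obtain ⟨o, ⟨ho1, ho2⟩, hu⟩ := h2 (l - c) (j - c)
    refine ⟨o.map (· + c), ⟨?_, ?_⟩, ?_⟩
    · intro hc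
      apply ho1
      rcases o with _ | k
      · simp at hc
      · simp only [Option.map_some, Option.some.injEq] at hc ⊢
        rw [← hc]; ring
    · rw [act_apply, Option.map_map]
      have : ((fun y : ZMod p => y - c) ∘ fun y => y + c) = id := by
        funext y; simp
      rw [this, Option.map_id, id_eq, ho2]; ring
    · rintro o' ⟨h3, h4⟩
      rw [act_apply] at h4
      have h5 : o'.map (· - c) = o := by
        apply hu
        refine ⟨?_, by rw [← h4]; ring⟩
        intro hc
        apply h3
        rcases o' with _ | k
        · simp at hc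
        · simp only [Option.map_some, Option.some.injEq] at hc ⊢
          have := congrArg (· + c) hc
          simpa using this
      rw [← h5, Option.map_map]
      have : ((fun y : ZMod p => y + c) ∘ fun y => y - c) = id := by
        funext y; simp
      rw [this, Option.map_id, id_eq]

/-- the sign of a family as a unit -/
def usg {O : Type} [Fintype O] {ι : Type} [Fintype ι] [DecidableEq ι] (π : O → Perm ι) : ℤˣ :=
  ∏ k, sign (π k)

theorem usg_act (c : ZMod p) (π : Option (ZMod p) → Perm (ZMod p)) : usg (act c π) = usg π := by
  unfold usg act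
  simp only [sign_symm_trans_trans]
  refine Fintype.prod_bijective (fun o : Option (ZMod p) => o.map (· - c)) ?_ _ _ (fun _ => rfl)
  have : (fun o : Option (ZMod p) => o.map (· - c)) = optionCongr (Equiv.subRight c) := by
    funext o; rfl
  rw [this]
  exact (optionCongr (Equiv.subRight c)).bijective

theorem act_iter (n : ℕ) (π : Option (ZMod p) → Perm (ZMod p)) :
    (act (1 : ZMod p))^[n] π = act (n : ZMod p) π := by
  induction n generalizing π with
  | zero => simp [act_zero]
  | succ n ih =>
    rw [Function.iterate_succ_apply, ih, act_act]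
    push_cast
    rfl

theorem fixed_all {π : Option (ZMod p) → Perm (ZMod p)} (h : act 1 π = π) (c : ZMod p) :
    act c π = π := by
  have h1 : ∀ n : ℕ, (act (1 : ZMod p))^[n] π = π := by
    intro n
    induction n with
    | zero => rfl
    | succ n ih => rw [Function.iterate_succ_apply, h, ih]
  have := h1 c.val
  rw [act_iter, ZMod.natCast_zmod_val] at this
  exact this

/-- canonical orthomorphisms of the cyclic group -/
def Orth (θ : Perm (ZMod p)) : Prop := θ 0 = 0 ∧ Function.Injective fun t => θ t - t

/-- The cyclic family given by a permutation. -/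
def fam (θ : Perm (ZMod p)) : Option (ZMod p) → Perm (ZMod p)
  | none => Equiv.refl _
  | some k => ((Equiv.addRight k).symm.trans θ).trans (Equiv.addRight k)

theorem fam_some (θ : Perm (ZMod p)) (k x : ZMod p) : fam θ (some k) x = θ (x - k) + k := by
  simp [fam, sub_eq_add_neg]

theorem fam_cond {θ : Perm (ZMod p)} (h : Orth θ) : Cond (fam θ) := by
  obtain ⟨h0, hi⟩ := h
  have hs := (Finite.injective_iff_bijective.1 hi).2
  refine ⟨fun k => ?_, fun l j => ?_⟩
  · rw [fam_some, sub_self, h0, zero_add]; rfl
  · obtain ⟨t, ht⟩ := hs (j - l)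
    simp only at ht
    by_cases h : t = 0
    · subst h
      have hjl : j = l := by
        rw [h0] at ht
        have h' : j - l = 0 := by rw [← ht]; ring
        exact sub_eq_zero.1 h'
      subst hjl
      refine ⟨none, ⟨by simp, rfl⟩, ?_⟩
      rintro (_ | k) ⟨h3, h4⟩
      · rfl
      · exfalso
        rw [fam_some] at h4
        have h5 : θ (j - k) - (j - k) = θ 0 - 0 := by
          rw [h0]
          linear_combination h4
        have h6 : j - k = 0 := hi h5
        apply h3
        rw [sub_eq_zero.1 h6]
    · refine ⟨some (l - t), ⟨?_, ?_⟩, ?_⟩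
      · intro hc
        apply h
        have := Option.some.inj hc
        linear_combination -this
      · rw [fam_some, show l - (l - t) = t by ring]
        linear_combination ht
      · rintro (_ | k) ⟨h3, h4⟩
        · exfalso
          have h4' : l = j := h4
          apply h
          apply hi
          simp only
          rw [h0, ht, h4']
          ring
        · rw [fam_some] at h4
          have h5 : θ (l - k) - (l - k) = θ t - t := by
            rw [ht]
            linear_combination h4
          have h6 : l - k = t := hi h5
          congr 1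
          linear_combination -h6

theorem fam_fixed (θ : Perm (ZMod p)) : act 1 (fam θ) = fam θ := by
  funext o
  ext1 x
  rw [act_apply]
  rcases o with _ | k
  · show (x - 1) + 1 = x
    ring
  · rw [Option.map_some, fam_some, fam_some]
    rw [show x - 1 - (k - 1) = x - k by ring]
    ring

theorem fixed_eq_fam (h2 : p ≠ 2) {π : Option (ZMod p) → Perm (ZMod p)} (h : Cond π)
    (hf : act 1 π = π) : Orth (π (some 0)) ∧ fam (π (some 0)) = π := by
  have hp2 := hp.out.two_le
  have hall := fixed_all hf
  have hk : ∀ k x, π (some k) x = π (some 0) (x - k) + k := by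
    intro k x
    conv_lhs => rw [← hall k]
    rw [act_apply, Option.map_some, sub_self]
  have hn : ∀ x, π none x = π none 0 + x := by
    intro x
    conv_lhs => rw [← hall x]
    rw [act_apply, Option.map_none, sub_self]
  have h0 : π (some 0) 0 = 0 := by simpa using h.1 0
  set c := π none 0 with hc
  set θ := π (some 0) with hθ
  -- the map t ↦ θ t - t with c at 0
  let m : ZMod p → ZMod p := fun t => if t = 0 then c else θ t - t
  have hm : Function.Bijective m := by
    rw [Function.bijective_iff_existsUnique]
    intro j
    obtain ⟨o, ⟨ho1, ho2⟩, hu⟩ := h.2 0 j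
    rcases o with _ | k
    · refine ⟨0, ?_, ?_⟩
      · show m 0 = j
        simp only [m, if_true]
        rw [← ho2]
      · intro t ht
        by_contra hne
        have ht' : θ t - t = j := by simpa [m, hne] using ht
        have := hu (some (-t)) ⟨by simpa using hne, by
          rw [hk, zero_sub, neg_neg]
          linear_combination ht'⟩
        exact absurd this (by simp)
    · have hk0 : k ≠ 0 := by
        intro h'; exact ho1 (by rw [h'])
      rw [hk, zero_sub] at ho2
      refine ⟨-k, ?_, ?_⟩
      · show m (-k) = j
        simp only [m, neg_eq_zero, hk0, if_false]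
        linear_combination ho2
      · intro t ht
        by_cases ht0 : t = 0
        · exfalso
          subst ht0
          have ht' : c = j := by simpa [m] using ht
          have := hu none ⟨by simp, by rw [← ht']⟩
          exact absurd this (by simp)
        · have ht' : θ t - t = j := by simpa [m, ht0] using ht
          have := hu (some (-t)) ⟨by simpa using ht0, by
            rw [hk, zero_sub, neg_neg]
            linear_combination ht'⟩
          have := Option.some.inj this
          linear_combination -this
  have hsum0 : ∑ d : ZMod p, d = 0 := by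
    have := FiniteField.sum_pow_lt_card_sub_one (ZMod p) 1 (by
      rw [ZMod.card]
      have : 2 < p := lt_of_le_of_ne hp2 (Ne.symm h2)
      omega)
    simpa using this
  have hc0 : c = 0 := by
    have h3 : ∑ t, m t = 0 := by rw [hm.sum_comp (fun x => x), hsum0]
    have h4 : ∀ t, m t = (θ t - t) + (if t = 0 then c else 0) := by
      intro t
      by_cases ht : t = 0
      · subst ht; simp [m, h0]
      · simp [m, ht]
    rw [Finset.sum_congr rfl fun t _ => h4 t, Finset.sum_add_distrib, Finset.sum_sub_distrib,
      Equiv.sum_comp θ (fun x => x)] at h3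
    simpa using h3
  refine ⟨⟨h0, ?_⟩, ?_⟩
  · intro a b hab
    apply hm.1
    simp only at hab
    show m a = m b
    have h4 : ∀ t, m t = θ t - t := by
      intro t
      by_cases ht : t = 0
      · subst ht; simp [m, h0, hc0]
      · simp [m, ht]
    rw [h4, h4, hab]
  · funext o
    ext1 x
    rcases o with _ | k
    · rw [hn, hc0, zero_add]; rfl
    · rw [fam_some, hk k x]

theorem sign_add (h2 : p ≠ 2) (c : ZMod p) : sign (Equiv.addRight c : Perm (ZMod p)) = 1 := by
  have h1 : (Equiv.addRight c : Perm (ZMod p)) ^ p = 1 := by
    have h3 : ∀ n : ℕ, ∀ x, ((Equiv.addRight c : Perm (ZMod p)) ^ n) x = x + n * c := by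
      intro n
      induction n with
      | zero => simp
      | succ n ih =>
        intro x
        rw [pow_succ, Equiv.Perm.mul_apply, ih]
        simp only [Equiv.coe_addRight]
        push_cast
        ring
    ext1 x
    rw [h3]
    simp
  have h3 := congrArg sign h1
  rw [map_pow, map_one] at h3
  have hodd : Odd p := hp.out.odd_of_ne_two h2
  rcases Int.units_eq_one_or (sign (Equiv.addRight c : Perm (ZMod p))) with h | h
  · exact h
  · rw [h, hodd.neg_one_pow] at h3
    exact absurd h3 (by decide)

theorem usg_fam (h2 : p ≠ 2) (θ : Perm (ZMod p)) : usg (fam θ) = sign θ := by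
  have hodd : Odd p := hp.out.odd_of_ne_two h2
  unfold usg
  rw [Fintype.prod_option]
  have h1 : ∀ k, sign (fam θ (some k)) = sign θ := by
    intro k
    exact sign_symm_trans_trans _ _
  rw [Finset.prod_congr rfl fun k _ => h1 k, Finset.prod_const, Finset.card_univ, ZMod.card]
  have h3 : sign (fam θ none) = 1 := by
    show sign (Equiv.refl (ZMod p)) = 1
    exact sign_refl
  rw [h3, one_mul]
  rcases Int.units_eq_one_or (sign θ) with h | h
  · rw [h, one_pow]
  · rw [h, hodd.neg_one_pow]

open Classical in
/-- The first step: the signed number of families is congruent to the signed number of canonical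
orthomorphisms. -/
theorem step1 (h2 : p ≠ 2) : ((Wsum (1 : Perm (ZMod p)) : ℤ) : ZMod p) =
    ((∑ θ ∈ univ.filter (fun θ : Perm (ZMod p) => Orth θ), (sign θ : ℤ) : ℤ) : ZMod p) := by
  let α := {π : Option (ZMod p) → Perm (ZMod p) // Cond π}
  let f : α → α := fun a => ⟨act 1 a.1, a.2.act 1⟩
  have hf : ∀ (n : ℕ) (a : α), (f^[n] a).1 = act (n : ZMod p) a.1 := by
    intro n
    induction n with
    | zero => intro a; simp [act_zero]
    | succ n ih =>
      intro a
      rw [Function.iterate_succ_apply, ih]
      show act (n : ZMod p) (act 1 a.1) = _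
      rw [act_act]; push_cast; rfl
  have hfp : f^[p] = id := by
    funext a
    apply Subtype.ext
    rw [hf]
    simp [act_zero]
  have h3 := sum_modEq (p := p) f hfp (fun a => usg a.1) (fun a => usg_act 1 a.1)
  have h4 : Wsum (1 : Perm (ZMod p)) = ∑ a : α, ((usg a.1 : ℤˣ) : ℤ) := by
    unfold Wsum
    rw [← Finset.sum_filter]
    rw [Finset.sum_subtype (univ.filter fun π : Option (ZMod p) → Perm (ZMod p) =>
      (∀ k, π (some k) k = (1 : Perm (ZMod p)) k) ∧ (∀ l j, ∃! o, ¬ (o = some l) ∧ π o l = j))
      (p := fun π => Cond π)]
    · refine Finset.sum_congr rfl fun a _ => ?_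
      unfold sg usg
      push_cast
      rfl
    · intro π
      simp only [Finset.mem_filter, Finset.mem_univ, true_and]
      rfl
  rw [h4, h3]
  congr 1
  refine Finset.sum_bij' (fun a _ => a.1 (some 0))
    (fun θ hθ => (⟨fam θ, fam_cond (Finset.mem_filter.1 hθ).2⟩ : α)) ?_ ?_ ?_ ?_ ?_
  · intro a ha
    have ha' : act 1 a.1 = a.1 := congrArg Subtype.val (Finset.mem_filter.1 ha).2
    rw [Finset.mem_filter]
    exact ⟨Finset.mem_univ _, (fixed_eq_fam h2 a.2 ha').1⟩
  · intro θ hθ
    rw [Finset.mem_filter]
    refine ⟨Finset.mem_univ _, Subtype.ext ?_⟩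
    exact fam_fixed θ
  · intro a ha
    have ha' : act 1 a.1 = a.1 := congrArg Subtype.val (Finset.mem_filter.1 ha).2
    exact Subtype.ext (fixed_eq_fam h2 a.2 ha').2
  · intro θ hθ
    ext1 x
    show fam θ (some 0) x = θ x
    rw [fam_some]; simp
  · intro a ha
    have ha' : act 1 a.1 = a.1 := congrArg Subtype.val (Finset.mem_filter.1 ha).2
    have h5 := (fixed_eq_fam h2 a.2 ha').2
    conv_lhs => rw [← h5]
    rw [usg_fam h2]

end Pool.Agent.TH437.RL
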