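import Mathlib
import Pool.Agent.TH437.Drisko2

set_option autoImplicit false

namespace Pool.Agent.TH437.RL

open Finset Equiv Equiv.Perm

variable {p : ℕ} [hp : Fact p.Prime]

/-- translation of a canonical orthomorphism -/
def tr (c : ZMod p) (θ : Perm (ZMod p)) : Perm (ZMod p) :=
  (Equiv.addRight c).trans (θ.trans (Equiv.addRight (-θ c)))

theorem tr_apply (c : ZMod p) (θ : Perm (ZMod p)) (x : ZMod p) : tr c θ x = θ (x + c) - θ c := by
  simp [tr, sub_eq_add_neg]

theorem tr_tr (c d : ZMod p) (θ : Perm (ZMod p)) : tr c (tr d θ) = tr (c + d) θ := by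
  ext1 x
  rw [tr_apply, tr_apply, tr_apply, tr_apply, ← add_assoc]
  ring

theorem tr_orth {θ : Perm (ZMod p)} (h : Orth θ) (c : ZMod p) : Orth (tr c θ) := by
  refine ⟨by rw [tr_apply]; simp, ?_⟩
  intro a b hab
  simp only [tr_apply] at hab
  have : θ (a + c) - (a + c) = θ (b + c) - (b + c) := by linear_combination hab
  exact add_right_cancel (h.2 this)

theorem sign_tr (h2 : p ≠ 2) (c : ZMod p) (θ : Perm (ZMod p)) : sign (tr c θ) = sign θ := by
  unfold tr
  rw [sign_trans, sign_trans, sign_add h2, sign_add h2]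
  simp

theorem tr_zero {θ : Perm (ZMod p)} (h : Orth θ) : tr 0 θ = θ := by
  ext1 x
  rw [tr_apply, h.1]; simp

theorem tr_iter {θ : Perm (ZMod p)} (h : Orth θ) (n : ℕ) :
    (tr (1 : ZMod p))^[n] θ = tr (n : ZMod p) θ := by
  induction n generalizing θ with
  | zero => simp [tr_zero h]
  | succ n ih =>
    rw [Function.iterate_succ_apply, ih (tr_orth h 1), tr_tr]
    push_cast
    rfl

theorem tr_fixed {θ : Perm (ZMod p)} (h : Orth θ) (hf : tr 1 θ = θ) (x : ZMod p) :
    θ x = θ 1 * x := by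
  have h1 : ∀ n : ℕ, θ (n : ZMod p) = θ 1 * n := by
    intro n
    induction n with
    | zero => simp [h.1]
    | succ n ih =>
      have h3 : tr 1 θ (n : ZMod p) = θ (n : ZMod p) := by rw [hf]
      rw [tr_apply] at h3
      push_cast
      have h4 : θ ((n : ZMod p) + 1) = θ (n : ZMod p) + θ 1 := by linear_combination h3
      rw [h4, ih]; ring
  have := h1 x.val
  rwa [ZMod.natCast_zmod_val] at this

/-- multiplication by a unit -/
def mulU (u : (ZMod p)ˣ) : Perm (ZMod p) := MulAction.toPermHom (ZMod p)ˣ (ZMod p) u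

theorem mulU_apply (u : (ZMod p)ˣ) (x : ZMod p) : mulU u x = (u : ZMod p) * x := rfl

open Classical in
theorem step2 (h2 : p ≠ 2) :
    ((∑ θ ∈ univ.filter (fun θ : Perm (ZMod p) => Orth θ), (sign θ : ℤ) : ℤ) : ZMod p) =
    ((∑ u ∈ univ.filter (fun u : (ZMod p)ˣ => u ≠ 1), (sign (mulU u) : ℤ) : ℤ) : ZMod p) := by
  let α := {θ : Perm (ZMod p) // Orth θ}
  let f : α → α := fun a => ⟨tr 1 a.1, tr_orth a.2 1⟩
  have hf : ∀ (n : ℕ) (a : α), (f^[n] a).1 = tr (n : ZMod p) a.1 := by
    intro n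
    induction n with
    | zero => intro a; simp [tr_zero a.2]
    | succ n ih =>
      intro a
      rw [Function.iterate_succ_apply, ih]
      show tr (n : ZMod p) (tr 1 a.1) = _
      rw [tr_tr]; push_cast; rfl
  have hfp : f^[p] = id := by
    funext a
    apply Subtype.ext
    rw [hf]
    simp [tr_zero a.2]
  have h3 := sum_modEq (p := p) f hfp (fun a => sign a.1) (fun a => sign_tr h2 1 a.1)
  have h4 : ∑ θ ∈ univ.filter (fun θ : Perm (ZMod p) => Orth θ), (sign θ : ℤ) =
      ∑ a : α, ((sign a.1 : ℤˣ) : ℤ) := by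
    rw [Finset.sum_subtype (univ.filter fun θ : Perm (ZMod p) => Orth θ) (p := fun θ => Orth θ)]
    intro θ
    simp
  rw [h4, h3]
  congr 1
  have hlam : ∀ a ∈ univ.filter (fun a : α => f a = a), a.1 1 ≠ 0 := by
    intro a _ h
    have := a.1.injective (h.trans a.2.1.symm)
    exact one_ne_zero this
  refine Finset.sum_bij' (fun a ha => Units.mk0 (a.1 1) (hlam a ha))
    (fun u hu => (⟨mulU u, ?_⟩ : α)) ?_ ?_ ?_ ?_ ?_
  · refine ⟨by rw [mulU_apply, mul_zero], ?_⟩
    intro a b hab
    simp only [mulU_apply] at hab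
    have h5 : ((u : ZMod p) - 1) * (a - b) = 0 := by linear_combination hab
    rcases mul_eq_zero.1 h5 with h6 | h6
    · exfalso
      apply (Finset.mem_filter.1 hu).2
      exact Units.ext (sub_eq_zero.1 h6)
    · exact sub_eq_zero.1 h6
  · intro a ha
    rw [Finset.mem_filter]
    refine ⟨Finset.mem_univ _, ?_⟩
    intro hc
    have h5 : a.1 1 = 1 := by
      have := congrArg Units.val hc
      simpa using this
    have h6 : a.1 1 - 1 = a.1 0 - 0 := by rw [h5, a.2.1]; ring
    exact one_ne_zero (a.2.2 h6)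
  · intro u hu
    rw [Finset.mem_filter]
    refine ⟨Finset.mem_univ _, Subtype.ext ?_⟩
    show tr 1 (mulU u) = mulU u
    ext1 x
    rw [tr_apply, mulU_apply, mulU_apply, mulU_apply]
    ring
  · intro a ha
    apply Subtype.ext
    ext1 x
    have ha' : tr 1 a.1 = a.1 := congrArg Subtype.val (Finset.mem_filter.1 ha).2
    show mulU (Units.mk0 (a.1 1) _) x = a.1 x
    rw [mulU_apply, tr_fixed a.2 ha' x]
    rfl
  · intro u hu
    apply Units.ext
    show mulU u 1 = u
    rw [mulU_apply, mul_one]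
  · intro a ha
    have ha' : tr 1 a.1 = a.1 := congrArg Subtype.val (Finset.mem_filter.1 ha).2
    have h5 : mulU (Units.mk0 (a.1 1) (hlam a ha)) = a.1 := by
      ext1 x
      rw [mulU_apply, tr_fixed a.2 ha' x]
      rfl
    rw [h5]

theorem step3 (h2 : p ≠ 2) :
    ((∑ u ∈ univ.filter (fun u : (ZMod p)ˣ => u ≠ 1), (sign (mulU u) : ℤ) : ℤ) : ZMod p) ≠ 0 := by
  classical
  have hp2 := hp.out.two_le
  let χ : (ZMod p)ˣ →* ℤ := (Units.coeHom ℤ).comp
    ((sign : Perm (ZMod p) →* ℤˣ).comp (MulAction.toPermHom (ZMod p)ˣ (ZMod p)))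
  have h3 : ∑ u : (ZMod p)ˣ, (sign (mulU u) : ℤ) = if χ = 1 then (Fintype.card (ZMod p)ˣ : ℤ)
      else 0 := by
    have := sum_hom_units χ
    push_cast at this
    rw [← this]
    rfl
  have h4 : ∑ u ∈ univ.filter (fun u : (ZMod p)ˣ => u ≠ 1), (sign (mulU u) : ℤ) =
      ∑ u : (ZMod p)ˣ, (sign (mulU u) : ℤ) - 1 := by
    have h5 : (univ.filter (fun u : (ZMod p)ˣ => u ≠ 1)) = univ.erase 1 := by
      ext u; simp
    rw [h5, ← Finset.add_sum_erase univ _ (Finset.mem_univ (1 : (ZMod p)ˣ))]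
    have h6 : sign (mulU (1 : (ZMod p)ˣ)) = 1 := by
      have : mulU (1 : (ZMod p)ˣ) = 1 := by
        ext1 x
        rw [mulU_apply]; simp
      rw [this, Equiv.Perm.sign_one]
    rw [h6]
    push_cast
    ring
  rw [h4, h3]
  split_ifs
  · rw [ZMod.card_units]
    push_cast
    have : ((p - 1 : ℕ) : ZMod p) = -1 := by
      rw [Nat.cast_sub (by omega)]; simp
    rw [this]
    intro h
    have h7 : ((2 : ℕ) : ZMod p) = 0 := by
      push_cast
      linear_combination -h
    rw [ZMod.natCast_eq_zero_iff] at h7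
    have := Nat.le_of_dvd (by norm_num) h7
    omega
  · simp

/-- Drisko's theorem: the signed number of reduced families of order `p + 1` is not divisible
by `p`. -/
theorem drisko (h2 : p ≠ 2) : ((rho (Option (ZMod p)) none : ℤ) : ZMod p) ≠ 0 := by
  rw [rho_option']
  push_cast
  rw [step1 h2, step2 h2]
  refine mul_ne_zero ?_ (step3 h2)
  exact pow_ne_zero _ (by simp)

end Pool.Agent.TH437.RL
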