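import Mathlib
import Pool.Agent.TH437.Norm

set_option autoImplicit false

namespace Pool.Agent.TH437.RL

open Finset Equiv Equiv.Perm

variable {p : ℕ} [hp : Fact p.Prime]

theorem sum_pow_sub_two (h2 : p ≠ 2) : ∑ a : ZMod p, a ^ (p - 2) = 0 := by
  have hp2 := hp.out.two_le
  apply FiniteField.sum_pow_lt_card_sub_one (ZMod p)
  rw [ZMod.card]
  omega

theorem sum_pow_sub_one : ∑ a : ZMod p, a ^ (p - 1) = -1 := by
  classical
  have hp2 := hp.out.two_le
  have h1 : ∀ a : ZMod p, a ^ (p - 1) = 1 - (if a = 0 then 1 else 0) := by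
    intro a
    by_cases h : a = 0
    · rw [if_pos h, h, zero_pow (by omega)]; ring
    · rw [if_neg h, ZMod.pow_card_sub_one_eq_one h]; ring
  rw [Finset.sum_congr rfl fun a _ => h1 a, Finset.sum_sub_distrib]
  simp

/-- The basic character sum. -/
theorem sum_G (h2 : p ≠ 2) {T X : Type} [Fintype T] [Fintype X] [DecidableEq T] [DecidableEq X]
    (hc : Fintype.card T = Fintype.card X) (f : T → X) [Decidable (Function.Bijective f)] :
    ∑ x : X → ZMod p, (∏ t, x (f t)) * ∏ j, x j ^ (p - 2) =
      if Function.Bijective f then (-1) ^ Fintype.card X else 0 := by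
  have hp2 := hp.out.two_le
  have h1 : ∀ x : X → ZMod p, (∏ t, x (f t)) * ∏ j, x j ^ (p - 2) =
      ∏ j, x j ^ ((univ.filter fun t => f t = j).card + (p - 2)) := by
    intro x
    rw [← Finset.prod_fiberwise (s := univ) (g := f) (f := fun t => x (f t)),
      ← Finset.prod_mul_distrib]
    refine Finset.prod_congr rfl fun j _ => ?_
    rw [pow_add]
    congr 1
    rw [Finset.prod_congr rfl (g := fun _ => x j), Finset.prod_const]
    intro t ht
    rw [(Finset.mem_filter.1 ht).2]
  rw [Finset.sum_congr rfl fun x _ => h1 x]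
  have h3 := Finset.prod_univ_sum (ι := X) (fun _ => (univ : Finset (ZMod p)))
    (fun j a => a ^ ((univ.filter fun t => f t = j).card + (p - 2)))
  rw [Fintype.piFinset_univ] at h3
  rw [← h3]
  by_cases hb : Function.Bijective f
  · rw [if_pos hb]
    have h4 : ∀ j, ∑ a : ZMod p, a ^ ((univ.filter fun t => f t = j).card + (p - 2)) = -1 := by
      intro j
      obtain ⟨t, ht⟩ := hb.2 j
      have : (univ.filter fun t => f t = j) = {t} := by
        ext t'
        simp only [Finset.mem_filter, Finset.mem_univ, true_and, Finset.mem_singleton]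
        exact ⟨fun h => hb.1 (h.trans ht.symm), fun h => by rw [h, ht]⟩
      rw [this, Finset.card_singleton, show 1 + (p - 2) = p - 1 by omega]
      exact sum_pow_sub_one
    rw [Finset.prod_congr rfl fun j _ => h4 j, Finset.prod_const, Finset.card_univ]
  · rw [if_neg hb]
    have hs : ¬ Function.Surjective f := by
      intro hs
      exact hb ((Fintype.bijective_iff_surjective_and_card f).2 ⟨hs, hc⟩)
    unfold Function.Surjective at hs
    push Not at hs
    obtain ⟨j, hj⟩ := hs
    refine Finset.prod_eq_zero (Finset.mem_univ j) ?_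
    have : (univ.filter fun t => f t = j) = ∅ := by
      ext t
      simpa using hj t
    rw [this, Finset.card_empty, zero_add]
    exact sum_pow_sub_two h2

variable {ι : Type} [Fintype ι] [DecidableEq ι]

open Classical in
/-- indicator of a vector being in the kernel, row by row -/
noncomputable def ind (v x : ι → ZMod p) : ZMod p := if ∑ j, x j * v j = 0 then 1 else 0

theorem det_pow_eq (A : ι → ι → ZMod p) :
    (Matrix.of A).det ^ (p - 1) = ∑ v : ι → ZMod p, ∏ i, ind v (A i) := by
  classical
  have hp2 := hp.out.two_le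
  have h0 : ∀ v : ι → ZMod p, ∏ i, ind v (A i) =
      if (Matrix.of A).mulVec v = 0 then 1 else 0 := by
    intro v
    unfold ind
    rw [Finset.prod_ite_zero]
    simp only [Finset.prod_const_one, Finset.mem_univ, true_implies]
    refine if_congr ?_ rfl rfl
    constructor
    · intro h
      funext i
      exact h i
    · intro h i
      exact congrFun h i
  rw [Finset.sum_congr rfl fun v _ => h0 v, Finset.sum_boole]
  by_cases hd : (Matrix.of A).det = 0
  · rw [hd, zero_pow (by omega)]
    obtain ⟨v, hv, hAv⟩ := Matrix.exists_mulVec_eq_zero_iff.2 hd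
    let K := LinearMap.ker (Matrix.toLin' (Matrix.of A))
    have hK : (univ.filter fun v : ι → ZMod p => (Matrix.of A).mulVec v = 0).card =
        Fintype.card K := by
      rw [← Fintype.card_subtype]
      refine Fintype.card_congr (Equiv.subtypeEquivRight fun w => ?_)
      show _ ↔ w ∈ LinearMap.ker (Matrix.toLin' (Matrix.of A))
      rw [LinearMap.mem_ker, Matrix.toLin'_apply]
    rw [hK, Module.card_eq_pow_finrank (K := ZMod p), ZMod.card]
    have hfr : 0 < Module.finrank (ZMod p) K := by
      rw [Module.finrank_pos_iff_exists_ne_zero]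
      refine ⟨⟨v, ?_⟩, ?_⟩
      · rw [LinearMap.mem_ker, Matrix.toLin'_apply]; exact hAv
      · intro h
        exact hv (congrArg Subtype.val h)
    push_cast
    rw [ZMod.natCast_self, zero_pow (by omega)]
  · rw [ZMod.pow_card_sub_one_eq_one hd]
    have : (univ.filter fun v : ι → ZMod p => (Matrix.of A).mulVec v = 0) = {0} := by
      ext v
      simp only [Finset.mem_filter, Finset.mem_univ, true_and, Finset.mem_singleton]
      constructor
      · intro h
        by_contra hv
        exact hd (Matrix.exists_mulVec_eq_zero_iff.1 ⟨v, hv, h⟩)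
      · rintro rfl
        simp
    rw [this]
    simp

theorem sum_ind (h2 : p ≠ 2) (hc : Fintype.card ι = p - 1) (v : ι → ZMod p) :
    ∑ x : ι → ZMod p, ind v x * ∏ j, x j ^ (p - 2) = (-1) ^ Fintype.card ι * ∏ j, v j := by
  classical
  have hp2 := hp.out.two_le
  have h1 : ∀ x : ι → ZMod p, ind v x = 1 - (∑ j, x j * v j) ^ (p - 1) := by
    intro x
    unfold ind
    by_cases h : ∑ j, x j * v j = 0
    · rw [if_pos h, h, zero_pow (by omega)]; ring
    · rw [if_neg h, ZMod.pow_card_sub_one_eq_one h]; ring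
  have h3 : ∀ x : ι → ZMod p, (∑ j, x j * v j) ^ (p - 1) * ∏ j, x j ^ (p - 2) =
      ∑ f : Fin (p - 1) → ι, (∏ t, v (f t)) * ((∏ t, x (f t)) * ∏ j, x j ^ (p - 2)) := by
    intro x
    have := Finset.sum_pow' (univ : Finset ι) (fun j => x j * v j) (p - 1)
    rw [Fintype.piFinset_univ] at this
    rw [this, Finset.sum_mul]
    refine Finset.sum_congr rfl fun f _ => ?_
    rw [Finset.prod_mul_distrib]
    ring
  have h4 : ∑ x : ι → ZMod p, ∏ j, x j ^ (p - 2) = 0 := by
    have h5 := Finset.prod_univ_sum (ι := ι) (fun _ => (univ : Finset (ZMod p)))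
      (fun _ a => a ^ (p - 2))
    rw [Fintype.piFinset_univ] at h5
    rw [← h5, Finset.prod_const, sum_pow_sub_two h2, zero_pow]
    rw [Finset.card_univ, hc]
    have : 2 < p := lt_of_le_of_ne hp2 (Ne.symm h2)
    omega
  have h6 : ∀ x : ι → ZMod p, ind v x * ∏ j, x j ^ (p - 2) = ∏ j, x j ^ (p - 2) -
      ∑ f : Fin (p - 1) → ι, (∏ t, v (f t)) * ((∏ t, x (f t)) * ∏ j, x j ^ (p - 2)) := by
    intro x
    rw [h1 x, sub_mul, one_mul, h3 x]
  rw [Finset.sum_congr rfl fun x _ => h6 x, Finset.sum_sub_distrib, h4, Finset.sum_comm]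
  have h7 : ∀ f : Fin (p - 1) → ι, ∑ x : ι → ZMod p,
      (∏ t, v (f t)) * ((∏ t, x (f t)) * ∏ j, x j ^ (p - 2)) =
      if Function.Bijective f then (-1) ^ Fintype.card ι * ∏ j, v j else 0 := by
    intro f
    rw [← Finset.mul_sum, sum_G h2 (by rw [Fintype.card_fin, hc]) f]
    by_cases hb : Function.Bijective f
    · rw [if_pos hb, if_pos hb, mul_comm]
      congr 1
      exact hb.prod_comp v
    · rw [if_neg hb, if_neg hb, mul_zero]
  rw [Finset.sum_congr rfl fun f _ => h7 f, ← Finset.sum_filter, Finset.sum_const]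
  have h8 : (univ.filter fun f : Fin (p - 1) → ι => Function.Bijective f).card =
      (p - 1).factorial := by
    rw [← Fintype.card_subtype]
    have e : {f : Fin (p - 1) → ι // Function.Bijective f} ≃ (Fin (p - 1) ≃ ι) :=
      { toFun := fun f => Equiv.ofBijective f.1 f.2
        invFun := fun e => ⟨e, e.bijective⟩
        left_inv := fun f => by ext; rfl
        right_inv := fun e => by ext; rfl }
    rw [Fintype.card_congr e, Fintype.card_equiv
      (Fintype.equivOfCardEq (by rw [Fintype.card_fin, hc])), Fintype.card_fin]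
  rw [h8, nsmul_eq_mul, ZMod.wilsons_lemma]
  ring

/-- Glynn's theorem for the coefficient of the all ones monomial: the signed number of Latin
squares of order `p - 1` is `1` modulo `p`. -/
theorem Asum_mod (h2 : p ≠ 2) (hc : Fintype.card ι = p - 1) : ((Asum ι : ℤ) : ZMod p) = 1 := by
  classical
  have hp2 := hp.out.two_le
  have hodd : Even (p - 1) := by
    rcases hp.out.eq_two_or_odd' with h | h
    · exact absurd h h2
    · exact Nat.Odd.sub_odd h odd_one
  have hev : Even (Fintype.card ι) := by rw [hc]; exact hodd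
  -- first evaluation
  have hS1 : ∑ A : ι → ι → ZMod p, (Matrix.of A).det ^ (p - 1) * ∏ i, ∏ j, A i j ^ (p - 2) =
      ((Asum ι : ℤ) : ZMod p) := by
    have h1 : ∀ A : ι → ι → ZMod p, (Matrix.of A).det ^ (p - 1) * ∏ i, ∏ j, A i j ^ (p - 2) =
        ∑ π : ι → Perm ι, ((sg π : ℤ) : ZMod p) * ((∏ t : ι × ι, A t.2 (π t.1 t.2)) *
          ∏ x : ι × ι, A x.1 x.2 ^ (p - 2)) := by
      intro A
      have h3 : (Matrix.of A).det = ∑ σ : Perm ι, ((sign σ : ℤ) : ZMod p) * ∏ i, A i (σ i) := by
        rw [← Matrix.det_transpose, Matrix.det_apply']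
        rfl
      rw [← hc, ← Finset.card_univ, ← Finset.prod_const, h3, Finset.prod_univ_sum,
        Fintype.piFinset_univ, Finset.sum_mul]
      refine Finset.sum_congr rfl fun π _ => ?_
      rw [Finset.prod_mul_distrib, mul_assoc]
      congr 1
      · unfold sg
        push_cast
        rfl
      · rw [Fintype.prod_prod_type, Fintype.prod_prod_type]
    rw [Finset.sum_congr rfl fun A _ => h1 A, Finset.sum_comm]
    unfold Asum
    push_cast
    refine Finset.sum_congr rfl fun π _ => ?_
    rw [← Finset.mul_sum]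
    have h4 : ∑ A : ι → ι → ZMod p, ((∏ t : ι × ι, A t.2 (π t.1 t.2)) *
          ∏ x : ι × ι, A x.1 x.2 ^ (p - 2)) =
        ∑ x : ι × ι → ZMod p, (∏ t : ι × ι, x (t.2, π t.1 t.2)) * ∏ j, x j ^ (p - 2) := by
      refine Fintype.sum_equiv (Equiv.curry ι ι (ZMod p)).symm _ _ ?_
      intro A
      rfl
    rw [h4, sum_G h2 rfl (fun t : ι × ι => (t.2, π t.1 t.2))]
    have h5 : Function.Bijective (fun t : ι × ι => (t.2, π t.1 t.2)) ↔ Lat π := by
      rw [Function.bijective_iff_existsUnique]
      constructor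
      · intro h l j
        obtain ⟨⟨k, i⟩, hk, hu⟩ := h (l, j)
        simp only [Prod.mk.injEq] at hk
        obtain ⟨rfl, hk⟩ := hk
        refine ⟨k, hk, fun k' hk' => ?_⟩
        have := hu (k', i) (by simp [hk'])
        exact (Prod.ext_iff.1 this).1
      · rintro h ⟨l, j⟩
        obtain ⟨k, hk, hu⟩ := h l j
        refine ⟨(k, l), by simp [hk], ?_⟩
        rintro ⟨k', l'⟩ h'
        simp only [Prod.mk.injEq] at h'
        obtain ⟨rfl, h'⟩ := h'
        rw [hu k' h']
    by_cases hl : Lat π
    · rw [if_pos (h5.2 hl), if_pos hl, Fintype.card_prod, pow_mul, hev.neg_one_pow, one_pow,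
        mul_one]
    · rw [if_neg (fun h => hl (h5.1 h)), if_neg hl]
      simp
  -- second evaluation
  have hS2 : ∑ A : ι → ι → ZMod p, (Matrix.of A).det ^ (p - 1) * ∏ i, ∏ j, A i j ^ (p - 2) =
      1 := by
    have h1 : ∀ A : ι → ι → ZMod p, (Matrix.of A).det ^ (p - 1) * ∏ i, ∏ j, A i j ^ (p - 2) =
        ∑ v : ι → ZMod p, ∏ i, (ind v (A i) * ∏ j, A i j ^ (p - 2)) := by
      intro A
      rw [det_pow_eq, Finset.sum_mul]
      refine Finset.sum_congr rfl fun v _ => ?_
      rw [Finset.prod_mul_distrib]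
    rw [Finset.sum_congr rfl fun A _ => h1 A, Finset.sum_comm]
    have h3 : ∀ v : ι → ZMod p, ∑ A : ι → ι → ZMod p,
        ∏ i, (ind v (A i) * ∏ j, A i j ^ (p - 2)) = ∏ j, v j ^ (p - 1) := by
      intro v
      have h4 := Finset.prod_univ_sum (ι := ι) (fun _ => (univ : Finset (ι → ZMod p)))
        (fun _ x => ind v x * ∏ j, x j ^ (p - 2))
      rw [Fintype.piFinset_univ] at h4
      rw [← h4, Finset.prod_const, sum_ind h2 hc v, Finset.card_univ, hev.neg_one_pow, one_mul,
        ← Finset.prod_pow, hc]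
    rw [Finset.sum_congr rfl fun v _ => h3 v]
    have h5 := Finset.prod_univ_sum (ι := ι) (fun _ => (univ : Finset (ZMod p)))
      (fun _ a => a ^ (p - 1))
    rw [Fintype.piFinset_univ] at h5
    rw [← h5, Finset.prod_const, sum_pow_sub_one, Finset.card_univ, hev.neg_one_pow]
  rw [← hS1, hS2]

end Pool.Agent.TH437.RL
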