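import Mathlib
import Pool.Agent.TH437.Glynn
import Pool.Agent.TH437.Drisko3

set_option autoImplicit false

namespace Pool.Agent.TH437.RL

open Finset Equiv Equiv.Perm

theorem eps_ne (ι : Type) [Fintype ι] [DecidableEq ι] : eps ι ≠ 0 := by
  rw [eps_eq]
  exact pow_ne_zero _ (by norm_num)

/-- The signed number of reduced Latin squares of order `p` is not zero. -/
theorem Tsum_prime (n : ℕ) (hp : (n + 1).Prime) (h2 : n + 1 ≠ 2) :
    Tsum (Fin (n + 1)) 0 ≠ 0 := by
  haveI : Fact (n + 1).Prime := ⟨hp⟩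
  have hn : 0 < n := by
    have := hp.two_le
    omega
  have hev : Even n := by
    rcases hp.eq_two_or_odd' with h | h
    · exact absurd h h2
    · have := Nat.Odd.sub_odd h odd_one
      simpa using this
  rw [Tsum_succ n hev ⟨0, hn⟩]
  refine mul_ne_zero (by exact_mod_cast Nat.factorial_ne_zero _) ?_
  rw [Tsum_eq]
  refine mul_ne_zero (eps_ne _) ?_
  intro h0
  have h1 := Asum_mod (p := n + 1) (ι := Fin n) h2 (by simp)
  rw [Asum_eq_rho (ι := Fin n) (by simpa using hev) ⟨0, hn⟩, h0] at h1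
  simp at h1

/-- The signed number of reduced Latin squares of order `p + 2` is not zero. -/
theorem Tsum_prime_add_two (p : ℕ) (hp : p.Prime) (h2 : p ≠ 2) :
    Tsum (Fin (p + 2)) 0 ≠ 0 := by
  haveI : Fact p.Prime := ⟨hp⟩
  have hev : Even (p + 1) := (hp.odd_of_ne_two h2).add_one
  have h := Tsum_succ (p + 1) hev 0
  rw [h]
  refine mul_ne_zero (by exact_mod_cast Nat.factorial_ne_zero _) ?_
  rw [Tsum_eq]
  refine mul_ne_zero (eps_ne _) ?_
  let e0 : ZMod p ≃ Fin p := Fintype.equivOfCardEq (by rw [ZMod.card, Fintype.card_fin])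
  let e : Option (ZMod p) ≃ Fin (p + 1) := (optionCongr e0).trans (finSuccEquiv p).symm
  have he : e none = 0 := by simp [e]
  have h3 := rho_congr e none
  rw [he] at h3
  rw [← h3]
  intro h0
  have h4 := drisko (p := p) h2
  rw [h0] at h4
  simp at h4

end Pool.Agent.TH437.RL
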